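import Pool.Agent.GraphicPolish.Category

/-!
# Neighbourhood sequences, countable dense subgroups, open stabilizers
-/

set_option autoImplicit false
set_option linter.unusedSectionVars false

open Topology Filter Set Pointwise

namespace Pool.Agent.GraphicPolish

/-- A sequence of open symmetric neighbourhoods of the identity with `V (n+1) * V (n+1) ⊆ V n`
together with an enumeration `e` of a countable dense subgroup. -/
structure Base (G : Type*) [Group G] [TopologicalSpace G] where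
  V : ℕ → Set G
  isOpen : ∀ n, IsOpen (V n)
  one_mem : ∀ n, (1 : G) ∈ V n
  inv_mem : ∀ n g, g ∈ V n → g⁻¹ ∈ V n
  mul_mem : ∀ n g h, g ∈ V (n + 1) → h ∈ V (n + 1) → g * h ∈ V n
  basis : ∀ U ∈ 𝓝 (1 : G), ∃ n, V n ⊆ U
  e : ℕ → G
  e_zero : e 0 = 1
  e_dense : DenseRange e
  e_mul : ∀ i j, ∃ k, e i * e j = e k
  e_inv : ∀ i, ∃ k, (e i)⁻¹ = e k

theorem exists_base (G : Type*) [Group G] [TopologicalSpace G] [IsTopologicalGroup G]
    [FirstCountableTopology G] [TopologicalSpace.SeparableSpace G] : Nonempty (Base G) := by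
  obtain ⟨u, hu, hmul⟩ := IsTopologicalGroup.exists_antitone_basis_nhds_one G
  obtain ⟨f, hf⟩ := exists_surjective_nat (FreeGroup ℕ)
  let φ : FreeGroup ℕ →* G := FreeGroup.lift (TopologicalSpace.denseSeq G)
  let e : ℕ → G := fun n => Nat.casesOn n 1 (fun m => φ (f m))
  have he : ∀ n, ∃ w, e n = φ w := by
    intro n
    cases n with
    | zero => exact ⟨1, by simp [e]⟩
    | succ m => exact ⟨f m, rfl⟩
  have he' : ∀ w, ∃ n, φ w = e n := by
    intro w
    obtain ⟨m, rfl⟩ := hf w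
    exact ⟨m + 1, rfl⟩
  let V : ℕ → Set G := fun n => {g | g ∈ interior (u n) ∧ g⁻¹ ∈ interior (u n)}
  have hVo : ∀ n, IsOpen (V n) := fun n =>
    isOpen_interior.inter (isOpen_interior.preimage continuous_inv)
  have hmem : ∀ n, u n ∈ 𝓝 (1 : G) := fun n => hu.1.mem_of_mem trivial
  have h1 : ∀ n, (1 : G) ∈ V n := fun n =>
    ⟨mem_interior_iff_mem_nhds.2 (hmem n), by
      rw [inv_one]; exact mem_interior_iff_mem_nhds.2 (hmem n)⟩
  have hsub : ∀ n, interior (u (n + 1)) * interior (u (n + 1)) ⊆ interior (u n) := by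
    intro n
    refine interior_maximal ?_ (isOpen_interior.mul_right)
    exact (mul_subset_mul interior_subset interior_subset).trans (hmul n)
  refine ⟨{ V := V, isOpen := hVo, one_mem := h1, inv_mem := ?_, mul_mem := ?_, basis := ?_,
            e := e, e_zero := rfl, e_dense := ?_, e_mul := ?_, e_inv := ?_ }⟩
  · rintro n g ⟨hg1, hg2⟩
    exact ⟨hg2, by rwa [inv_inv]⟩
  · rintro n g h ⟨hg1, hg2⟩ ⟨hh1, hh2⟩
    refine ⟨hsub n (mul_mem_mul hg1 hh1), ?_⟩
    rw [mul_inv_rev]
    exact hsub n (mul_mem_mul hh2 hg2)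
  · intro U hU
    obtain ⟨n, -, hn⟩ := hu.1.mem_iff.1 hU
    exact ⟨n, fun g hg => hn (interior_subset hg.1)⟩
  · refine (TopologicalSpace.denseRange_denseSeq G).mono ?_
    rintro _ ⟨n, rfl⟩
    obtain ⟨k, hk⟩ := he' (FreeGroup.of n)
    refine ⟨k, ?_⟩
    rw [← hk]
    simp [φ]
  · intro i j
    obtain ⟨a, ha⟩ := he i
    obtain ⟨b, hb⟩ := he j
    obtain ⟨k, hk⟩ := he' (a * b)
    exact ⟨k, by rw [ha, hb, ← map_mul, hk]⟩
  · intro i
    obtain ⟨a, ha⟩ := he i
    obtain ⟨k, hk⟩ := he' a⁻¹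
    exact ⟨k, by rw [ha, ← map_inv, hk]⟩

theorem isOpen_translate {G : Type*} [Group G] [TopologicalSpace G] [IsTopologicalGroup G]
    {U : Set G} (hU : IsOpen U) (a : G) : IsOpen {g | g * a ∈ U} :=
  hU.preimage (continuous_mul_const a)

theorem isOpen_translate_left {G : Type*} [Group G] [TopologicalSpace G] [IsTopologicalGroup G]
    {U : Set G} (hU : IsOpen U) (a : G) : IsOpen {g | a * g ∈ U} :=
  hU.preimage (continuous_const_mul a)

namespace Base

variable {G : Type*} [Group G] [TopologicalSpace G] (B : Base G)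

theorem anti_succ (n : ℕ) : B.V (n + 1) ⊆ B.V n := fun g hg => by
  simpa using B.mul_mem n g 1 hg (B.one_mem (n + 1))

theorem anti {m n : ℕ} (h : m ≤ n) : B.V n ⊆ B.V m := by
  induction h with
  | refl => exact Subset.rfl
  | step _ ih => exact (B.anti_succ _).trans ih

theorem mul_mem' {m n k : ℕ} {g h : G} (hg : g ∈ B.V m) (hh : h ∈ B.V n) (hm : k + 1 ≤ m)
    (hn : k + 1 ≤ n) : g * h ∈ B.V k :=
  B.mul_mem k g h (B.anti hm hg) (B.anti hn hh)

theorem nonempty (n : ℕ) : (B.V n).Nonempty := ⟨1, B.one_mem n⟩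

theorem mem_nhds (n : ℕ) : B.V n ∈ 𝓝 (1 : G) := (B.isOpen n).mem_nhds (B.one_mem n)

variable [IsTopologicalGroup G]

/-- Every neighbourhood of `g` contains `V n * g` for some `n`. -/
theorem exists_right {U : Set G} {g : G} (hU : IsOpen U) (hg : g ∈ U) :
    ∃ n, ∀ v ∈ B.V n, v * g ∈ U := by
  have : (fun v => v * g) ⁻¹' U ∈ 𝓝 (1 : G) :=
    (hU.preimage (continuous_mul_const g)).mem_nhds (by simpa using hg)
  obtain ⟨n, hn⟩ := B.basis _ this
  exact ⟨n, fun v hv => hn hv⟩

theorem exists_left {U : Set G} {g : G} (hU : IsOpen U) (hg : g ∈ U) :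
    ∃ n, ∀ v ∈ B.V n, g * v ∈ U := by
  have : (fun v => g * v) ⁻¹' U ∈ 𝓝 (1 : G) :=
    (hU.preimage (continuous_const_mul g)).mem_nhds (by simpa using hg)
  obtain ⟨n, hn⟩ := B.basis _ this
  exact ⟨n, fun v hv => hn hv⟩

omit [IsTopologicalGroup G] in
theorem exists_e_mem {U : Set G} (hU : IsOpen U) (hne : U.Nonempty) : ∃ i, B.e i ∈ U :=
  B.e_dense.exists_mem_open hU hne

/-- `AE` near `g`: from an open set containing `g` to `V n`. -/
theorem ae_local {U : Set G} {p : G → Prop} (hU : IsOpen U) {g : G} (hg : g ∈ U) (h : AE U p) :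
    ∃ n, AE (B.V n) (fun v => p (v * g)) := by
  obtain ⟨n, hn⟩ := B.exists_right hU hg
  exact ⟨n, (h.translate_right g).mono_set hn⟩

end Base

section Stabilizer

variable {G : Type*} [Group G] [TopologicalSpace G] [IsTopologicalGroup G] (B : Base G)
  {X : Type*} [MulAction G X]

/-- Points whose stabilizer contains the dense subgroup locally. -/
def X0 (X : Type*) [MulAction G X] : Set X :=
  {z | ∃ n, ∀ i, B.e i ∈ B.V n → B.e i • z = z}

variable [BaireSpace G] [MeasurableSpace G] [BorelSpace G] [MeasurableSpace X]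
  [StandardBorelSpace X] [MeasurableSMul₂ G X]

omit [TopologicalSpace G] [IsTopologicalGroup G] [BaireSpace G] [BorelSpace G]
  [StandardBorelSpace X] in
theorem measurableSet_orbit {A : Set X} (hA : MeasurableSet A) (z : X) :
    MeasurableSet {g : G | g • z ∈ A} :=
  (measurable_smul_const z) hA

/-- If a Borel stabilizer contains the dense subgroup locally then it is open. -/
theorem stabilizer_open {z : X} (hz : z ∈ X0 B X) : ∃ n, ∀ g ∈ B.V n, g • z = z := by
  obtain ⟨n, hn⟩ := hz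
  refine ⟨n + 1, ?_⟩
  obtain ⟨S, hSm, hSsep⟩ := exists_seq_separating X (p := MeasurableSet) MeasurableSet.empty univ
  have hmeas : ∀ k, MeasurableSet {g : G | g • z ∈ S k} := fun k => measurableSet_orbit (hSm k) z
  have key : ∀ k, AE (B.V (n + 1)) (fun g => g • z ∈ S k) ∨
      AE (B.V (n + 1)) (fun g => ¬ g • z ∈ S k) := by
    intro k
    by_contra hcon
    push Not at hcon
    obtain ⟨h1, h2⟩ := hcon
    obtain ⟨W1, hW1o, ⟨a, ha⟩, hW1s, hW1⟩ := exists_open_of_not_ae (B.isOpen _) (hmeas k) h1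
    obtain ⟨W2, hW2o, ⟨b, hb⟩, hW2s, hW2⟩ := exists_open_of_not_ae_not (B.isOpen _) (hmeas k) h2
    have hO : IsOpen ({d | a * d ∈ W2} ∩ B.V n) :=
      (isOpen_translate_left hW2o a).inter (B.isOpen n)
    obtain ⟨i, hi1, hi2⟩ := B.exists_e_mem hO ⟨a⁻¹ * b, by simpa using hb,
      B.mul_mem n _ _ (B.inv_mem _ _ (hW1s ha)) (hW2s hb)⟩
    have hd : B.e i • z = z := hn i hi2
    have h3 : IsOpen (W1 ∩ {g | g * B.e i ∈ W2}) :=
      hW1o.inter (isOpen_translate hW2o (B.e i))
    obtain ⟨g, hg, hg1, hg2⟩ := ((hW1.mono_set (inter_subset_left (t := {g | g * B.e i ∈ W2}))).and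
      ((hW2.translate_right (B.e i)).mono_set (inter_subset_right (s := W1)))).exists h3
      ⟨a, ha, hi1⟩
    rw [mul_smul, hd] at hg2
    exact hg1 hg2
  have key2 : AE (B.V (n + 1)) (fun g => ∀ k, (g • z ∈ S k ↔
      AE (B.V (n + 1)) (fun g => g • z ∈ S k))) := by
    refine ae_forall fun k => ?_
    rcases key k with h | h
    · exact h.mono fun g hg => ⟨fun _ => h, fun _ => hg⟩
    · refine h.mono fun g hg => ⟨fun h' => absurd h' hg, fun h' => ?_⟩
      obtain ⟨g', -, hg1, hg2⟩ := (h.and h').exists (B.isOpen _) (B.nonempty _)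
      exact absurd hg2 hg1
  obtain ⟨g0, -, hg0⟩ := key2.exists (B.isOpen _) (B.nonempty _)
  have key3 : AE (B.V (n + 1)) (fun g => g • z = g0 • z) := by
    refine key2.mono fun g hg => hSsep _ (mem_univ _) _ (mem_univ _) fun k => ?_
    rw [hg k, hg0 k]
  intro v hv
  have hO : IsOpen (B.V (n + 1) ∩ {g | g * v ∈ B.V (n + 1)}) :=
    (B.isOpen _).inter (isOpen_translate (B.isOpen _) v)
  obtain ⟨g, -, hg1, hg2⟩ := ((key3.mono_set
      (inter_subset_left (t := {g | g * v ∈ B.V (n + 1)}))).and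
    ((key3.translate_right v).mono_set (inter_subset_right (s := B.V (n + 1))))).exists hO
      ⟨1, B.one_mem _, by simpa using hv⟩
  rw [mul_smul, ← hg1] at hg2
  exact smul_left_cancel g hg2

/-- The set `X0` is invariant. -/
theorem smul_mem_X0 {z : X} (hz : z ∈ X0 B X) (g : G) : g • z ∈ X0 B X := by
  obtain ⟨n, hn⟩ := stabilizer_open B hz
  have hO : IsOpen {v | g⁻¹ * (v * g) ∈ B.V n} :=
    (B.isOpen n).preimage ((continuous_const_mul _).comp (continuous_mul_const _))
  obtain ⟨m, hm⟩ := B.basis _ (hO.mem_nhds (by simpa using B.one_mem n))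
  refine ⟨m, fun i hi => ?_⟩
  have h := hn _ (hm hi)
  rw [mul_smul, inv_smul_eq_iff, mul_smul] at h
  exact h

theorem smul_mem_X0_iff {z : X} (g : G) : g • z ∈ X0 B X ↔ z ∈ X0 B X := by
  refine ⟨fun h => ?_, fun h => smul_mem_X0 B h g⟩
  simpa using smul_mem_X0 B h g⁻¹

/-- On `X0` orbits are given by the countable dense subgroup. -/
theorem exists_e_smul_of_mem_X0 {z : X} (hz : z ∈ X0 B X) (g : G) : ∃ i, B.e i • z = g • z := by
  obtain ⟨n, hn⟩ := stabilizer_open B hz
  obtain ⟨i, hi⟩ := B.exists_e_mem (isOpen_translate_left (B.isOpen n) g⁻¹)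
    ⟨g, by simpa using B.one_mem n⟩
  refine ⟨i, ?_⟩
  have h := hn _ hi
  rw [mul_smul, inv_smul_eq_iff] at h
  exact h

theorem measurableSet_X0 : MeasurableSet (X0 B X) := by
  have : X0 B X = ⋃ n, ⋂ i, {z | B.e i ∈ B.V n → B.e i • z = z} := by
    ext z; simp [X0]
  rw [this]
  refine MeasurableSet.iUnion fun n => MeasurableSet.iInter fun i => ?_
  by_cases h : B.e i ∈ B.V n
  · simp only [h, true_imp_iff]
    exact measurableSet_eq_fun (measurable_const_smul _) measurable_id
  · simp [h]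

end Stabilizer

end Pool.Agent.GraphicPolish
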