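import Mathlib

/-!
# Baire category quantifiers and the Montgomery-Novikov theorem

Auxiliary file for the proof that every Polish group is graphic.
-/

set_option autoImplicit false
set_option linter.unusedSectionVars false

open Topology Filter Set

namespace Pool.Agent.GraphicPolish

section Category

variable {G : Type*} [TopologicalSpace G]

/-- `AE U p`: the property `p` holds for comeagrely many points of `U`. -/
def AE (U : Set G) (p : G → Prop) : Prop := ∀ᶠ g in residual G, g ∈ U → p g

theorem AE.mono_set {U W : Set G} {p : G → Prop} (h : AE U p) (hWU : W ⊆ U) : AE W p :=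
  Filter.Eventually.mono h fun _ hg hw => hg (hWU hw)

theorem AE.mono {U : Set G} {p q : G → Prop} (h : AE U p) (hpq : ∀ g, p g → q g) : AE U q :=
  Filter.Eventually.mono h fun _ hg hu => hpq _ (hg hu)

theorem AE.mono' {U : Set G} {p q : G → Prop} (h : AE U p) (hpq : ∀ g ∈ U, p g → q g) : AE U q :=
  Filter.Eventually.mono h fun _ hg hu => hpq _ hu (hg hu)

theorem AE.and {U : Set G} {p q : G → Prop} (h : AE U p) (h' : AE U q) :
    AE U (fun g => p g ∧ q g) :=
  (Filter.Eventually.and h h').mono fun _ hg hu => ⟨hg.1 hu, hg.2 hu⟩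

theorem ae_forall {ι : Sort*} [Countable ι] {U : Set G} {p : ι → G → Prop}
    (h : ∀ i, AE U (p i)) : AE U (fun g => ∀ i, p i g) := by
  have : ∀ᶠ g in residual G, ∀ i, g ∈ U → p i g := eventually_countable_forall.2 h
  exact this.mono fun g hg hu i => hg i hu

theorem ae_of_forall {U : Set G} {p : G → Prop} (h : ∀ g ∈ U, p g) : AE U p :=
  Filter.Eventually.of_forall fun g hg => h g hg

theorem ae_of_eventually {U : Set G} {p : G → Prop} (h : ∀ᶠ g in residual G, p g) : AE U p :=
  h.mono fun _ hg _ => hg

theorem ae_iUnion {ι : Sort*} [Countable ι] {U : ι → Set G} {p : G → Prop}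
    (h : ∀ i, AE (U i) p) : AE (⋃ i, U i) p := by
  have : ∀ᶠ g in residual G, ∀ i, g ∈ U i → p g := eventually_countable_forall.2 h
  refine this.mono fun g hg hu => ?_
  obtain ⟨i, hi⟩ := mem_iUnion.1 hu
  exact hg i hi

theorem AE.exists [BaireSpace G] {U : Set G} {p : G → Prop} (h : AE U p) (hU : IsOpen U)
    (hne : U.Nonempty) : ∃ g ∈ U, p g := by
  have hd : Dense {g | g ∈ U → p g} := dense_of_mem_residual h
  obtain ⟨g, hgU, hg⟩ := hd.inter_open_nonempty U hU hne
  exact ⟨g, hgU, hg hgU⟩

theorem AE.exists_and [BaireSpace G] {U : Set G} {p : G → Prop} (h : AE U p) {W : Set G}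
    (hW : IsOpen W) (hWU : W ⊆ U) (hne : W.Nonempty) : ∃ g ∈ W, p g :=
  (h.mono_set hWU).exists hW hne

/-- If a countable family of sets covers a nonempty open set then one of them is nonmeager. -/
theorem exists_not_ae_not [BaireSpace G] {ι : Sort*} [Countable ι] {U : Set G} (hU : IsOpen U)
    (hne : U.Nonempty) {p : ι → G → Prop} (h : ∀ g ∈ U, ∃ i, p i g) :
    ∃ i, ¬ AE U (fun g => ¬ p i g) := by
  by_contra hcon
  push Not at hcon
  obtain ⟨g, hgU, hg⟩ := (ae_forall hcon).exists hU hne
  obtain ⟨i, hi⟩ := h g hgU
  exact hg i hi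

/-- A nonmeager set with the property of Baire is comeager in a nonempty open set. -/
theorem exists_open_of_not_ae_not [MeasurableSpace G] [BorelSpace G] {U : Set G} (hU : IsOpen U)
    {p : G → Prop} (hp : MeasurableSet {g | p g}) (h : ¬ AE U (fun g => ¬ p g)) :
    ∃ W, IsOpen W ∧ W.Nonempty ∧ W ⊆ U ∧ AE W p := by
  obtain ⟨O, hO, hpO⟩ := hp.residualEq_isOpen
  have hpO' : ∀ᶠ g in residual G, (p g ↔ g ∈ O) := by
    filter_upwards [hpO.mem_iff] with g hg using hg
  refine ⟨U ∩ O, hU.inter hO, ?_, inter_subset_left, ?_⟩
  · by_contra hempty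
    apply h
    filter_upwards [hpO'] with g hg hgU hpg
    exact hempty ⟨g, hgU, hg.1 hpg⟩
  · filter_upwards [hpO'] with g hg hgUO
    exact hg.2 hgUO.2

theorem exists_open_of_not_ae [MeasurableSpace G] [BorelSpace G] {U : Set G} (hU : IsOpen U)
    {p : G → Prop} (hp : MeasurableSet {g | p g}) (h : ¬ AE U p) :
    ∃ W, IsOpen W ∧ W.Nonempty ∧ W ⊆ U ∧ AE W (fun g => ¬ p g) := by
  refine exists_open_of_not_ae_not hU (p := fun g => ¬ p g) hp.compl ?_
  intro h'
  exact h (h'.mono fun g hg => not_not.1 hg)

/-- For comeagrely many `g`: if `p g` then `p` holds comeagrely near `g`. -/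
theorem eventually_locally [MeasurableSpace G] [BorelSpace G]
    {p : G → Prop} (hp : MeasurableSet {g | p g}) :
    ∀ᶠ g in residual G, p g → ∃ W, IsOpen W ∧ g ∈ W ∧ AE W p := by
  obtain ⟨O, hO, hpO⟩ := hp.residualEq_isOpen
  have hpO' : ∀ᶠ g in residual G, (p g ↔ g ∈ O) := by
    filter_upwards [hpO.mem_iff] with g hg using hg
  filter_upwards [hpO'] with g hg hpg
  refine ⟨O, hO, hg.1 hpg, ?_⟩
  filter_upwards [hpO'] with g' hg' hg'O
  exact hg'.2 hg'O

/-- Monotonicity of nonmeagerness. -/
theorem not_ae_mono {U W : Set G} {p q : G → Prop} (h : ¬ AE U p) (hUW : U ⊆ W)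
    (hpq : ∀ g ∈ U, q g → p g) : ¬ AE W q := by
  intro h'
  exact h ((h'.mono_set hUW).mono' hpq)

end Category

section Translate

variable {G : Type*} [Group G] [TopologicalSpace G] [IsTopologicalGroup G]

theorem tendsto_mul_right_residual (a : G) :
    Tendsto (fun g : G => g * a) (residual G) (residual G) :=
  tendsto_residual_of_isOpenMap (continuous_mul_const a) (isOpenMap_mul_right a)

theorem tendsto_mul_left_residual (a : G) :
    Tendsto (fun g : G => a * g) (residual G) (residual G) :=
  tendsto_residual_of_isOpenMap (continuous_const_mul a) (isOpenMap_mul_left a)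

theorem AE.translate_right {U : Set G} {p : G → Prop} (h : AE U p) (a : G) :
    AE {g | g * a ∈ U} (fun g => p (g * a)) :=
  (tendsto_mul_right_residual a).eventually h

theorem AE.translate_left {U : Set G} {p : G → Prop} (h : AE U p) (a : G) :
    AE {g | a * g ∈ U} (fun g => p (a * g)) :=
  (tendsto_mul_left_residual a).eventually h

end Translate

section MontgomeryNovikov

variable {X G : Type*} [MeasurableSpace X] [TopologicalSpace G] [SecondCountableTopology G]
  [BaireSpace G] [MeasurableSpace G] [BorelSpace G]

omit [SecondCountableTopology G] [MeasurableSpace G] [BorelSpace G] in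
theorem ae_const_iff {U : Set G} (hU : IsOpen U) (hne : U.Nonempty) (q : Prop) :
    AE U (fun _ => q) ↔ q := by
  refine ⟨fun h => ?_, fun h => ae_of_forall fun _ _ => h⟩
  obtain ⟨_, _, h⟩ := h.exists hU hne
  exact h

/-- The σ-algebra of subsets `S` of `X × G` such that every section has the property of Baire
and the set of `x` for which the section `S x` is meager in `U` is measurable for all open `U`. -/
@[reducible] def catSpace (X G : Type*) [MeasurableSpace X] [TopologicalSpace G] [SecondCountableTopology G]
    [BaireSpace G] : MeasurableSpace (X × G) where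
  MeasurableSet' S := (∀ x, BaireMeasurableSet {g | (x, g) ∈ S}) ∧
    ∀ U : Set G, IsOpen U → MeasurableSet {x | AE U (fun g => (x, g) ∉ S)}
  measurableSet_empty := by
    refine ⟨fun x => ?_, fun U _ => ?_⟩
    · simpa using (IsOpen.baireMeasurableSet (α := G) isOpen_empty)
    · have : {x : X | AE U (fun g => (x, g) ∉ (∅ : Set (X × G)))} = univ := by
        ext x
        simp only [mem_empty_iff_false, not_false_eq_true, mem_univ, iff_true]
        exact ae_of_forall fun _ _ => trivial
      rw [this]
      exact MeasurableSet.univ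
  measurableSet_compl := by
    intro S hS
    refine ⟨fun x => (hS.1 x).compl, fun U hU => ?_⟩
    have key : {x | AE U (fun g => (x, g) ∉ Sᶜ)} =
        ⋂ V ∈ {V | V ∈ TopologicalSpace.countableBasis G ∧ V ⊆ U},
          {x | AE V (fun g => (x, g) ∉ S)}ᶜ := by
      ext x
      simp only [mem_compl_iff, mem_ofPred, mem_iInter, and_imp, not_not]
      constructor
      · intro h V hV hVU h'
        have hVo : IsOpen V := TopologicalSpace.isOpen_of_mem_countableBasis hV
        have hVne : V.Nonempty := TopologicalSpace.nonempty_of_mem_countableBasis hV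
        obtain ⟨g, _, hg1, hg2⟩ := ((h.mono_set hVU).and h').exists hVo hVne
        exact hg2 hg1
      · intro h
        by_contra hcon
        obtain ⟨O, hO, hpO⟩ := ((hS.1 x).compl).residualEq_isOpen
        have hpO' : ∀ᶠ g in residual G, ((x, g) ∉ S ↔ g ∈ O) := by
          filter_upwards [hpO.mem_iff] with g hg using hg
        have hne : (U ∩ O).Nonempty := by
          by_contra hempty
          apply hcon
          filter_upwards [hpO'] with g hg hgU
          by_contra hpg
          exact hempty ⟨g, hgU, hg.1 hpg⟩
        obtain ⟨g, hg⟩ := hne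
        obtain ⟨V, hV, hgV, hVsub⟩ := (TopologicalSpace.isBasis_countableBasis G).exists_subset_of_mem_open
          hg (hU.inter hO)
        refine h V hV (hVsub.trans inter_subset_left) ?_
        filter_upwards [hpO'] with g hg hgV
        exact hg.2 (hVsub hgV).2
    rw [key]
    refine MeasurableSet.biInter ?_ ?_
    · exact (TopologicalSpace.countable_countableBasis G).mono fun V hV => hV.1
    · rintro V ⟨hV, _⟩
      exact (hS.2 V (TopologicalSpace.isOpen_of_mem_countableBasis hV)).compl
  measurableSet_iUnion := by
    intro f hf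
    refine ⟨fun x => ?_, fun U hU => ?_⟩
    · have : {g | (x, g) ∈ ⋃ i, f i} = ⋃ i, {g | (x, g) ∈ f i} := by
        ext g; simp
      rw [this]
      exact BaireMeasurableSet.iUnion fun i => (hf i).1 x
    · have : {x | AE U (fun g => (x, g) ∉ ⋃ i, f i)} = ⋂ i, {x | AE U (fun g => (x, g) ∉ f i)} := by
        ext x
        simp only [mem_iUnion, not_exists, mem_ofPred, mem_iInter]
        constructor
        · intro h i
          exact h.mono fun g hg => hg i
        · intro h
          exact ae_forall h
      rw [this]
      exact MeasurableSet.iInter fun i => (hf i).2 U hU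

theorem prod_le_catSpace : (inferInstance : MeasurableSpace (X × G)) ≤ catSpace X G := by
  refine sup_le ?_ ?_
  · rintro _ ⟨A, hA, rfl⟩
    refine ⟨fun x => ?_, fun U hU => ?_⟩
    · by_cases hx : x ∈ A
      · have : {g : G | (x, g) ∈ Prod.fst ⁻¹' A} = univ := by ext g; simp [hx]
        rw [this]; exact isOpen_univ.baireMeasurableSet
      · have : {g : G | (x, g) ∈ Prod.fst ⁻¹' A} = ∅ := by ext g; simp [hx]
        rw [this]; exact isOpen_empty.baireMeasurableSet
    · rcases U.eq_empty_or_nonempty with hU0 | hne
      · have : {x | AE U (fun g => (x, g) ∉ Prod.fst ⁻¹' A)} = univ := by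
          ext x
          simp only [mem_univ, iff_true, mem_ofPred]
          exact ae_of_forall fun g hg => by simp [hU0] at hg
        rw [this]; exact MeasurableSet.univ
      · have : {x | AE U (fun g => (x, g) ∉ Prod.fst ⁻¹' A)} = Aᶜ := by
          ext x
          simp only [mem_ofPred, mem_preimage, mem_compl_iff]
          exact ae_const_iff hU hne _
        rw [this]; exact hA.compl
  · rintro _ ⟨A, hA, rfl⟩
    refine ⟨fun x => ?_, fun U hU => ?_⟩
    · exact hA.baireMeasurableSet
    · simp only [mem_preimage]
      exact MeasurableSet.const _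

/-- **Montgomery-Novikov**: category quantifiers preserve measurability. -/
theorem measurableSet_ae {S : Set (X × G)} (hS : MeasurableSet S) {U : Set G} (hU : IsOpen U) :
    MeasurableSet {x | AE U (fun g => (x, g) ∈ S)} := by
  have h := (prod_le_catSpace (X := X) (G := G) Sᶜ hS.compl).2 U hU
  simpa using h

end MontgomeryNovikov

end Pool.Agent.GraphicPolish
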