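import Pool.Agent.GraphicPolish.Colouring

/-!
# Stable values, refinement of radius predicates, exact coding of natural numbers
-/

set_option autoImplicit false
set_option linter.unusedSectionVars false

open Topology Filter Set Pointwise

namespace Pool.Agent.GraphicPolish

/-- From a sequence of measurable sets to the least index (as a measurable function). -/
theorem exists_least {X : Type*} [MeasurableSpace X] (C : ℕ → Set X)
    (hC : ∀ k, MeasurableSet (C k)) :
    ∃ κ : X → ℕ, Measurable κ ∧ ∀ u, (∃ k, u ∈ C k) → u ∈ C (κ u) ∧ ∀ k, u ∈ C k → κ u ≤ k := by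
  classical
  have hp : ∀ u, ∃ k, u ∈ C k ∨ ∀ k', u ∉ C k' := by
    intro u
    by_cases h : ∃ k, u ∈ C k
    · obtain ⟨k, hk⟩ := h; exact ⟨k, Or.inl hk⟩
    · push Not at h; exact ⟨0, Or.inr h⟩
  refine ⟨fun u => Nat.find (hp u), measurable_find hp fun k => ?_, fun u hu => ⟨?_, ?_⟩⟩
  · have : {u | u ∈ C k ∨ ∀ k', u ∉ C k'} = C k ∪ ⋂ k', (C k')ᶜ := by
      ext u; simp
    rw [this]
    exact (hC k).union (MeasurableSet.iInter fun k' => (hC k').compl)
  · rcases Nat.find_spec (hp u) with h | h
    · exact h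
    · obtain ⟨k, hk⟩ := hu
      exact absurd hk (h k)
  · intro k hk
    exact Nat.find_min' _ (Or.inl hk)

variable {G : Type*} [Group G] [TopologicalSpace G] {B : Base G}
  [IsTopologicalGroup G] {X : Type*} [MulAction G X]
  [BaireSpace G] [MeasurableSpace G] [BorelSpace G] [MeasurableSpace X]
  [StandardBorelSpace X] [MeasurableSMul₂ G X]

/-- `θ` has the stable value `s` at `z` along the orbit of `z`. -/
def Stab (B : Base G) (θ : X → ℕ) (z : X) (s : ℕ) : Prop :=
  ∃ j, AE (B.V j) (fun g => θ (g • z) = s)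

omit [IsTopologicalGroup G] [MeasurableSpace G] [BorelSpace G] [MeasurableSpace X]
  [StandardBorelSpace X] [MeasurableSMul₂ G X] in
theorem ae_inconsistent {m n : ℕ} {p q : G → Prop} (hp : AE (B.V m) p) (hq : AE (B.V n) q)
    (h : ∀ g, p g → q g → False) : False := by
  obtain ⟨g, -, h1, h2⟩ := ((hp.mono_set (B.anti (le_max_left m n))).and
    (hq.mono_set (B.anti (le_max_right m n)))).exists (B.isOpen _) (B.nonempty _)
  exact h g h1 h2

omit [IsTopologicalGroup G] [MeasurableSpace G] [BorelSpace G] [MeasurableSpace X]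
  [StandardBorelSpace X] [MeasurableSMul₂ G X] in
theorem Stab.unique {θ : X → ℕ} {z : X} {s t : ℕ} (hs : Stab B θ z s) (ht : Stab B θ z t) :
    s = t := by
  obtain ⟨j, hj⟩ := hs
  obtain ⟨k, hk⟩ := ht
  by_contra hne
  exact ae_inconsistent hj hk (fun g h1 h2 => hne (h1.symm.trans h2))

/-- measurability of category quantifiers along orbits -/
theorem measurableSet_ae_orbit [SecondCountableTopology G] {A : Set X} (hA : MeasurableSet A)
    {U : Set G} (hU : IsOpen U) : MeasurableSet {z : X | AE U (fun g => g • z ∈ A)} := by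
  have h : MeasurableSet {p : X × G | p.2 • p.1 ∈ A} :=
    ((measurable_smul (M := G) (α := X)).comp measurable_swap) hA
  exact measurableSet_ae h hU

theorem measurableSet_ae_eq [SecondCountableTopology G] {θ : X → ℕ} (hθ : Measurable θ)
    {U : Set G} (hU : IsOpen U) (s : ℕ) : MeasurableSet {z : X | AE U (fun g => θ (g • z) = s)} :=
  measurableSet_ae_orbit (A := {z | θ z = s}) (hθ (measurableSet_singleton s)) hU

theorem measurableSet_stab [SecondCountableTopology G] {θ : X → ℕ} (hθ : Measurable θ) (s : ℕ) :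
    MeasurableSet {z : X | Stab B θ z s} := by
  have : {z : X | Stab B θ z s} = ⋃ j, {z | AE (B.V j) (fun g => θ (g • z) = s)} := by
    ext z; simp [Stab]
  rw [this]
  exact MeasurableSet.iUnion fun j => measurableSet_ae_eq hθ (B.isOpen j) s

/-- The measurable function reading off the stable value. -/
theorem exists_reader [SecondCountableTopology G] (B : Base G) {θ : X → ℕ} (hθ : Measurable θ) :
    ∃ r : X → ℕ, Measurable r ∧ ∀ z s, Stab B θ z s → r z = s := by
  obtain ⟨κ, hκ, h⟩ := exists_least (fun s => {z : X | Stab B θ z s})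
    (fun s => measurableSet_stab hθ s)
  exact ⟨κ, hκ, fun z s hs => (h z ⟨s, hs⟩).1.unique hs⟩

/-- Refinement of a radius predicate by a function. -/
def Rad.next [SecondCountableTopology G] (R : Rad B X) (θ : X → ℕ) (hθ : Measurable θ) :
    Rad B X where
  P n := {z | ∃ n', n = n' + 2 ∧ z ∈ R.P n' ∧ ∃ s, s ≤ n' ∧ AE (B.V n') (fun g => θ (g • z) = s)}
  meas n := by
    have : {z | ∃ n', n = n' + 2 ∧ z ∈ R.P n' ∧ ∃ s, s ≤ n' ∧
        AE (B.V n') (fun g => θ (g • z) = s)} =
        ⋃ n' ∈ {n' | n = n' + 2}, (R.P n' ∩ ⋃ s ∈ {s | s ≤ n'},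
          {z | AE (B.V n') (fun g => θ (g • z) = s)}) := by
      ext z
      simp
      exact ⟨fun ⟨a, b, c, d⟩ => ⟨a, c, b, d⟩, fun ⟨a, b, c, d⟩ => ⟨a, c, b, d⟩⟩
    rw [this]
    exact MeasurableSet.biUnion (to_countable _) fun n' _ => (R.meas n').inter
      (MeasurableSet.biUnion (to_countable _) fun s _ => measurableSet_ae_eq hθ (B.isOpen n') s)
  mono := by
    rintro n z ⟨n', rfl, hz, s, hs, h⟩
    exact ⟨n' + 1, rfl, R.mono _ _ hz, s, by omega, h.mono_set (B.anti_succ n')⟩
  lip := by
    rintro n z w ⟨n', rfl, hz, s, hs, h⟩ hw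
    refine ⟨n' + 1, rfl, R.lip _ _ _ hz (B.anti (by omega) hw), s, by omega, ?_⟩
    refine ((h.translate_right w).mono_set ?_).mono ?_
    · intro g hg
      exact B.mul_mem' hg hw le_rfl (by omega)
    · intro g hg
      rwa [mul_smul] at hg

variable [SecondCountableTopology G]

/-- One step along a chain of refinements. -/
theorem Rad.step (R : Rad B X) (θ : X → ℕ) (hθ : Measurable θ) {u : X} {l : ℕ} (hu : u ∈ R.At l)
    {w : G} (hw : w ∈ B.V (l + 2)) {s : ℕ} (hs : Stab B θ (w • u) s) :
    ∃ l', w • u ∈ (R.next θ hθ).At l' ∧ l + 1 ≤ l' ∧ s ≤ l' ∧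
      AE (B.V l') (fun g => θ (g • w • u) = s) := by
  obtain ⟨m, hm, hm1, hm2⟩ := R.at_lip hu hw
  obtain ⟨j, hj⟩ := id hs
  have h1 : w • u ∈ (R.next θ hθ).P (max m (max s j) + 2) := by
    refine ⟨_, rfl, R.mono' (le_max_left _ _) hm.1, s, ?_, hj.mono_set (B.anti ?_)⟩
    · exact (le_max_left _ _).trans (le_max_right _ _)
    · exact (le_max_right _ _).trans (le_max_right _ _)
  obtain ⟨l', -, hl'⟩ := (R.next θ hθ).exists_at h1
  obtain ⟨n', hn', hP, s', hs', hae⟩ := hl'.1
  have hss' : s' = s := Stab.unique (B := B) ⟨n', hae⟩ hs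
  subst hss'
  refine ⟨l', hl', ?_, by omega, hae.mono_set (B.anti (by omega))⟩
  have : m ≤ n' := by
    by_contra hcon
    exact hm.2 n' (by omega) hP
  omega

/-- Shift of a radius predicate. -/
def Rad.shift (R : Rad B X) : Rad B X where
  P n := {z | ∃ n', n = n' + 1 ∧ z ∈ R.P n'}
  meas n := by
    have : {z | ∃ n', n = n' + 1 ∧ z ∈ R.P n'} = ⋃ n' ∈ {n' | n = n' + 1}, R.P n' := by
      ext z; simp
    rw [this]
    exact MeasurableSet.biUnion (to_countable _) fun n' _ => R.meas n'
  mono := by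
    rintro n z ⟨n', rfl, hz⟩
    exact ⟨n' + 1, rfl, R.mono _ _ hz⟩
  lip := by
    rintro n z w ⟨n', rfl, hz⟩ hw
    exact ⟨n' + 1, rfl, R.lip _ _ _ hz (B.anti (by omega) hw)⟩

/-- The chosen colouring for a radius predicate. -/
noncomputable def Rad.col (R : Rad B X) : Set X := Classical.choose (exists_colouring R)

theorem Rad.measurableSet_col (R : Rad B X) : MeasurableSet R.col :=
  (Classical.choose_spec (exists_colouring R)).1

theorem Rad.col_spec (R : Rad B X) {z : X} (hz : z ∉ X0 B X) {n : ℕ} (hn : z ∈ R.At n) :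
    (¬ AE (B.V (n + 2)) (fun g => ¬ g • z ∈ R.col)) ∧
      (¬ AE (B.V (n + 2)) (fun g => g • z ∈ R.col)) :=
  (Classical.choose_spec (exists_colouring R)).2 z hz n hn

open Classical in
/-- The indicator function of the chosen colouring. -/
noncomputable def Rad.ind (R : Rad B X) : X → ℕ := fun z => if z ∈ R.col then 1 else 0

theorem Rad.measurable_ind (R : Rad B X) : Measurable R.ind :=
  Measurable.ite R.measurableSet_col measurable_const measurable_const

theorem Rad.ind_eq_one {R : Rad B X} {z : X} : R.ind z = 1 ↔ z ∈ R.col := by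
  simp [Rad.ind]

theorem Rad.ind_eq_zero {R : Rad B X} {z : X} : R.ind z = 0 ↔ z ∉ R.col := by
  simp [Rad.ind]

/-- The chain of refinements by 2-colourings. -/
noncomputable def Rad.chain (R : Rad B X) : ℕ → Rad B X
  | 0 => R
  | k + 1 => (Rad.chain R k).next (Rad.chain R k).ind (Rad.chain R k).measurable_ind

/-- A nonmeager set of `g ∈ U` with a measurable property contains a point at which the property
is stable. -/
theorem exists_stable {U : Set G} (hU : IsOpen U) {A : Set X} (hA : MeasurableSet A) {z : X}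
    (h : ¬ AE U (fun g => ¬ g • z ∈ A)) :
    ∃ g ∈ U, g • z ∈ A ∧ ∃ j, AE (B.V j) (fun v => v • g • z ∈ A) := by
  obtain ⟨W, hWo, hWne, hWU, hW⟩ := exists_open_of_not_ae_not hU (measurableSet_orbit hA z) h
  obtain ⟨g, hg, hgA⟩ := hW.exists hWo hWne
  obtain ⟨j, hj⟩ := B.ae_local hWo hg hW
  exact ⟨g, hWU hg, hgA, j, hj.mono fun v hv => by rwa [mul_smul] at hv⟩

/-- **Exact coding of natural numbers at variable radius.** -/
theorem exists_coding (R : Rad B X) :
    ∃ b : X → ℕ, Measurable b ∧ ∀ z ∉ X0 B X, ∀ n, z ∈ R.At n → ∀ i,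
      ∃ g ∈ B.V (n + 2), Stab B b (g • z) i := by
  obtain ⟨b, hb, hbs⟩ := exists_least (fun k => (R.shift.chain k).col)
    (fun k => (R.shift.chain k).measurableSet_col)
  refine ⟨b, hb, fun z hz n hn i => ?_⟩
  have hn' : z ∈ R.shift.At (n + 1) := by
    refine ⟨⟨n, rfl, hn.1⟩, ?_⟩
    rintro m hm ⟨m', rfl, hm'⟩
    exact hn.2 m' (by omega) hm'
  have key : ∀ k, ∃ g l, g • z ∈ (R.shift.chain k).At l ∧
      (∀ v ∈ B.V (l + 1), v * g ∈ B.V (n + 2)) ∧
      AE (B.V l) (fun v => ∀ i, i < k → v • g • z ∉ (R.shift.chain i).col) := by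
    intro k
    induction k with
    | zero =>
      refine ⟨1, n + 1, by rw [one_smul]; exact hn', fun v hv => by simpa using hv, ?_⟩
      exact ae_of_forall fun v _ i hi => absurd hi (Nat.not_lt_zero _)
    | succ k ih =>
      obtain ⟨g, l, h1, h2, h3⟩ := ih
      have hgz : g • z ∉ X0 B X := by rwa [smul_mem_X0_iff]
      have h4 := ((R.shift.chain k).col_spec hgz h1).2
      obtain ⟨w, hw, hwc, j, hj⟩ := exists_stable (B := B) (B.isOpen (l + 2))
        (R.shift.chain k).measurableSet_col.compl (z := g • z)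
        (by simpa only [mem_compl_iff, not_not] using h4)
      have hst : Stab B (R.shift.chain k).ind (w • g • z) 0 :=
        ⟨j, hj.mono fun v hv => Rad.ind_eq_zero.2 hv⟩
      obtain ⟨l', hl', hl1, -, hl3⟩ := (R.shift.chain k).step _
        (R.shift.chain k).measurable_ind h1 hw hst
      refine ⟨w * g, l', by rw [mul_smul]; exact hl', fun v hv => ?_, ?_⟩
      · rw [← mul_assoc]
        exact h2 _ (B.mul_mem' hv hw (by omega) le_rfl)
      · have h5 : AE (B.V l') (fun v => ∀ i, i < k → v • w • g • z ∉ (R.shift.chain i).col) := by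
          refine ((h3.translate_right w).mono_set ?_).mono ?_
          · intro v hv
            exact B.mul_mem' hv hw (by omega) (by omega)
          · intro v hv i hi
            have := hv i hi
            rwa [mul_smul] at this
        refine (h5.and hl3).mono fun v hv i hi => ?_
        rw [mul_smul]
        rcases Nat.lt_succ_iff_lt_or_eq.1 hi with hi | rfl
        · exact hv.1 i hi
        · exact Rad.ind_eq_zero.1 hv.2
  obtain ⟨g, l, h1, h2, h3⟩ := key i
  have hgz : g • z ∉ X0 B X := by rwa [smul_mem_X0_iff]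
  obtain ⟨w, hw, hwc, j, hj⟩ := exists_stable (B := B) (B.isOpen (l + 2))
    (R.shift.chain i).measurableSet_col (z := g • z) ((R.shift.chain i).col_spec hgz h1).1
  refine ⟨w * g, h2 w (B.anti (by omega) hw), max j (l + 1), ?_⟩
  have h5 : AE (B.V (l + 1)) (fun v => ∀ i', i' < i → v • w • g • z ∉ (R.shift.chain i').col) := by
    refine ((h3.translate_right w).mono_set ?_).mono ?_
    · intro v hv
      exact B.mul_mem' hv hw (by omega) (by omega)
    · intro v hv i hi
      have := hv i hi
      rwa [mul_smul] at this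
  refine ((hj.mono_set (B.anti (le_max_left _ _))).and
    (h5.mono_set (B.anti (le_max_right _ _)))).mono fun v hv => ?_
  rw [mul_smul]
  obtain ⟨h6, h7⟩ := hbs (v • w • g • z) ⟨i, hv.1⟩
  refine le_antisymm (h7 i hv.1) ?_
  by_contra hcon
  exact hv.2 _ (by omega) h6

end Pool.Agent.GraphicPolish
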