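import Pool.Agent.GraphicPolish.Base

/-!
# Radius predicates and Borel 2-colourings (greedy maximal matchings)
-/

set_option autoImplicit false
set_option linter.unusedSectionVars false

open Topology Filter Set Pointwise

namespace Pool.Agent.GraphicPolish

section Greedy

variable {G : Type*} [Group G] {X : Type*} [MulAction G X]

/-- The new part of the matching at step `t`. -/
def greedyNew (a : G) (C : Set X) (s : Set X × Set X) : Set X :=
  {z | z ∈ C ∧ z ∉ s.1 ∧ z ∉ s.2 ∧ a • z ∉ s.1 ∧ a • z ∉ s.2}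

/-- The greedy matching. -/
def greedy (a : ℕ → G) (C : ℕ → Set X) : ℕ → Set X × Set X
  | 0 => (∅, ∅)
  | t + 1 => ((greedy a C t).1 ∪ greedyNew (a t) (C t) (greedy a C t),
      (greedy a C t).2 ∪ {z | (a t)⁻¹ • z ∈ greedyNew (a t) (C t) (greedy a C t)})

variable [MeasurableSpace X] [MeasurableSpace G] [MeasurableSMul₂ G X]

/-- Greedy construction of a Borel maximal matching. -/
theorem exists_matching (a : ℕ → G) (C : ℕ → Set X) (hC : ∀ t, MeasurableSet (C t))
    (hdisj : ∀ t z, z ∈ C t → a t • z ∉ C t) :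
    ∃ P Q : Set X, MeasurableSet P ∧ MeasurableSet Q ∧ (∀ z, z ∈ P → z ∉ Q) ∧
      (∀ z ∈ P, ∃ t, z ∈ C t ∧ a t • z ∈ Q) ∧
      (∀ z ∈ Q, ∃ t, (a t)⁻¹ • z ∈ C t ∧ (a t)⁻¹ • z ∈ P) ∧
      (∀ t, ∀ z ∈ C t, (z ∈ P ∨ z ∈ Q) ∨ (a t • z ∈ P ∨ a t • z ∈ Q)) := by
  set F := greedy a C with hF
  have hsucc1 : ∀ t, (F (t + 1)).1 = (F t).1 ∪ greedyNew (a t) (C t) (F t) := fun t => rfl
  have hsucc2 : ∀ t, (F (t + 1)).2 = (F t).2 ∪ {z | (a t)⁻¹ • z ∈ greedyNew (a t) (C t) (F t)} :=
    fun t => rfl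
  have hm : ∀ t, MeasurableSet (F t).1 ∧ MeasurableSet (F t).2 := by
    intro t
    induction t with
    | zero => exact ⟨MeasurableSet.empty, MeasurableSet.empty⟩
    | succ t ih =>
      have hnew : MeasurableSet (greedyNew (a t) (C t) (F t)) := by
        refine (hC t).inter (ih.1.compl.inter (ih.2.compl.inter (MeasurableSet.inter ?_ ?_)))
        · exact (measurable_const_smul (a t)) ih.1.compl
        · exact (measurable_const_smul (a t)) ih.2.compl
      rw [hsucc1, hsucc2]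
      exact ⟨ih.1.union hnew, ih.2.union ((measurable_const_smul (a t)⁻¹) hnew)⟩
  have hmono1 : ∀ {s t}, s ≤ t → (F s).1 ⊆ (F t).1 := by
    intro s t hst
    induction hst with
    | refl => exact Subset.rfl
    | step _ ih => exact ih.trans (by rw [Nat.succ_eq_add_one, hsucc1]; exact subset_union_left)
  have hmono2 : ∀ {s t}, s ≤ t → (F s).2 ⊆ (F t).2 := by
    intro s t hst
    induction hst with
    | refl => exact Subset.rfl
    | step _ ih => exact ih.trans (by rw [Nat.succ_eq_add_one, hsucc2]; exact subset_union_left)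
  have hd : ∀ t z, z ∈ (F t).1 → z ∉ (F t).2 := by
    intro t
    induction t with
    | zero => intro z hz; exact absurd hz (notMem_empty z)
    | succ t ih =>
      intro z hz hz'
      rw [hsucc1] at hz
      rw [hsucc2] at hz'
      rcases hz with hz | hz <;> rcases hz' with hz' | hz'
      · exact ih z hz hz'
      · have := hz'.2.2.2.1
        rw [smul_inv_smul] at this
        exact this hz
      · exact hz.2.2.1 hz'
      · have h1 := hz'.1
        have h2 := hdisj t _ h1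
        rw [smul_inv_smul] at h2
        exact h2 hz.1
  refine ⟨⋃ t, (F t).1, ⋃ t, (F t).2, MeasurableSet.iUnion fun t => (hm t).1,
    MeasurableSet.iUnion fun t => (hm t).2, ?_, ?_, ?_, ?_⟩
  · intro z hz hz'
    obtain ⟨s, hs⟩ := mem_iUnion.1 hz
    obtain ⟨t, ht⟩ := mem_iUnion.1 hz'
    exact hd (max s t) z (hmono1 (le_max_left _ _) hs) (hmono2 (le_max_right _ _) ht)
  · intro z hz
    obtain ⟨s, hs⟩ := mem_iUnion.1 hz
    induction s with
    | zero => exact absurd hs (notMem_empty z)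
    | succ s ih =>
      rw [hsucc1] at hs
      rcases hs with hs | hs
      · exact ih hs
      · refine ⟨s, hs.1, mem_iUnion.2 ⟨s + 1, ?_⟩⟩
        rw [hsucc2]
        right
        rw [mem_ofPred, inv_smul_smul]
        exact hs
  · intro z hz
    obtain ⟨s, hs⟩ := mem_iUnion.1 hz
    induction s with
    | zero => exact absurd hs (notMem_empty z)
    | succ s ih =>
      rw [hsucc2] at hs
      rcases hs with hs | hs
      · exact ih hs
      · refine ⟨s, hs.1, mem_iUnion.2 ⟨s + 1, ?_⟩⟩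
        rw [hsucc1]
        right
        exact hs
  · intro t z hz
    by_contra hcon
    push Not at hcon
    obtain ⟨⟨h1, h2⟩, h3, h4⟩ := hcon
    simp only [mem_iUnion, not_exists] at h1 h2 h3 h4
    apply h1 (t + 1)
    rw [hsucc1]
    right
    exact ⟨hz, h1 t, h2 t, h3 t, h4 t⟩

end Greedy

section Radius

variable {G : Type*} [Group G] [TopologicalSpace G] (B : Base G)

/-- A radius predicate: `z ∈ P n` means that the neighbourhood `V n` is small enough for `z`. -/
structure Rad (X : Type*) [MulAction G X] [MeasurableSpace X] where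
  P : ℕ → Set X
  meas : ∀ n, MeasurableSet (P n)
  mono : ∀ n z, z ∈ P n → z ∈ P (n + 1)
  lip : ∀ n z w, z ∈ P n → w ∈ B.V (n + 1) → w • z ∈ P (n + 1)

namespace Rad

variable {B} {X : Type*} [MulAction G X] [MeasurableSpace X] (R : Rad B X)

/-- `z ∈ At n` iff `n` is the least radius index of `z`. -/
def At (n : ℕ) : Set X := {z | z ∈ R.P n ∧ ∀ m, m < n → z ∉ R.P m}

theorem mono' {m n : ℕ} (h : m ≤ n) {z : X} (hz : z ∈ R.P m) : z ∈ R.P n := by
  induction h with
  | refl => exact hz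
  | step _ ih => exact R.mono _ _ ih

theorem exists_at {n : ℕ} {z : X} (hz : z ∈ R.P n) : ∃ m, m ≤ n ∧ z ∈ R.At m := by
  classical
  have h : ∃ m, z ∈ R.P m := ⟨n, hz⟩
  exact ⟨Nat.find h, Nat.find_min' h hz, Nat.find_spec h, fun m hm => Nat.find_min h hm⟩

theorem at_unique {m n : ℕ} {z : X} (hm : z ∈ R.At m) (hn : z ∈ R.At n) : m = n := by
  rcases lt_trichotomy m n with h | h | h
  · exact absurd hm.1 (hn.2 m h)
  · exact h
  · exact absurd hn.1 (hm.2 n h)

theorem at_lip {n : ℕ} {z : X} {w : G} (hz : z ∈ R.At n) (hw : w ∈ B.V (n + 2)) :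
    ∃ m, w • z ∈ R.At m ∧ m ≤ n + 1 ∧ n ≤ m + 1 := by
  obtain ⟨m, hm, hm'⟩ := R.exists_at (R.lip n z w hz.1 (B.anti (by omega) hw))
  refine ⟨m, hm', hm, ?_⟩
  by_contra hcon
  push Not at hcon
  have h1 := R.lip m (w • z) w⁻¹ hm'.1 (B.anti (by omega) (B.inv_mem _ _ hw))
  rw [inv_smul_smul] at h1
  exact hz.2 (m + 1) hcon h1

theorem measurableSet_at (n : ℕ) : MeasurableSet (R.At n) := by
  have : R.At n = R.P n ∩ ⋂ m, {z | m < n → z ∉ R.P m} := by
    ext z; simp [At]
  rw [this]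
  refine (R.meas n).inter (MeasurableSet.iInter fun m => ?_)
  by_cases h : m < n
  · simp only [h, true_imp_iff]
    exact (R.meas m).compl
  · simp [h]

end Rad

variable [IsTopologicalGroup G] {X : Type*} [MulAction G X]
  [BaireSpace G] [MeasurableSpace G] [BorelSpace G] [MeasurableSpace X]
  [StandardBorelSpace X] [MeasurableSMul₂ G X]

variable {B}

/-- The group element `e i` is small compared to the radius at `z`. -/
def Rad.Small (R : Rad B X) (i : ℕ) : Set X := {z | ∃ n, z ∈ R.At n ∧ B.e i ∈ B.V (n + 6)}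

omit [IsTopologicalGroup G] [BaireSpace G] [MeasurableSpace G] [BorelSpace G]
  [StandardBorelSpace X] [MeasurableSMul₂ G X] in
theorem Rad.measurableSet_small (R : Rad B X) (i : ℕ) : MeasurableSet (R.Small i) := by
  have : R.Small i = ⋃ n, {z | z ∈ R.At n ∧ B.e i ∈ B.V (n + 6)} := by
    ext z; simp [Rad.Small]
  rw [this]
  refine MeasurableSet.iUnion fun n => ?_
  by_cases h : B.e i ∈ B.V (n + 6)
  · simp only [h, and_true]
    exact R.measurableSet_at n
  · simp [h]

omit [IsTopologicalGroup G] [BaireSpace G] [MeasurableSpace G] [BorelSpace G]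
  [MeasurableSpace X] [StandardBorelSpace X] [MeasurableSMul₂ G X] in
theorem exists_moving {z : X} (hz : z ∉ X0 B X) (n : ℕ) : ∃ i, B.e i ∈ B.V n ∧ B.e i • z ≠ z := by
  by_contra hcon
  push Not at hcon
  exact hz ⟨n, hcon⟩

/-- **Borel 2-colourings at variable radius.**  For every radius predicate there is a Borel set
`Q` such that both `Q` and its complement are nonmeager in `V (n+2) • z`, whenever `z` has
radius index `n` and its stabilizer is not open. -/
theorem exists_colouring (R : Rad B X) :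
    ∃ Q : Set X, MeasurableSet Q ∧ ∀ z ∉ X0 B X, ∀ n, z ∈ R.At n →
      (¬ AE (B.V (n + 2)) (fun g => ¬ g • z ∈ Q)) ∧ (¬ AE (B.V (n + 2)) (fun g => g • z ∈ Q)) := by
  obtain ⟨S, hSm, hSsep⟩ := exists_seq_separating X (p := MeasurableSet) MeasurableSet.empty univ
  let S' : ℕ → Bool → Set X := fun k b => if b then S k else (S k)ᶜ
  have hS'm : ∀ k b, MeasurableSet (S' k b) := by
    intro k b
    cases b
    · exact (hSm k).compl
    · exact hSm k
  have hS'sep : ∀ x y : X, x ≠ y → ∃ k b, x ∈ S' k b ∧ y ∉ S' k b := by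
    intro x y hxy
    by_contra hcon
    push Not at hcon
    refine hxy (hSsep x (mem_univ _) y (mem_univ _) fun k => ⟨fun h => hcon k true h, fun h => ?_⟩)
    by_contra h'
    exact hcon k false h' h
  obtain ⟨f, hf⟩ := exists_surjective_nat (ℕ × ℕ × Bool)
  let C : ℕ → Set X := fun t =>
    S' (f t).2.1 (f t).2.2 ∩ ({z | B.e (f t).1 • z ∉ S' (f t).2.1 (f t).2.2} ∩
      (R.Small (f t).1 ∩ {z | ∃ n, B.e (f t).1 • z ∈ R.At n ∧ B.e (f t).1 ∈ B.V (n + 6)}))
  have hC : ∀ t, MeasurableSet (C t) := fun t =>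
    (hS'm _ _).inter (((measurable_const_smul (B.e (f t).1)) (hS'm _ _).compl).inter
      ((R.measurableSet_small _).inter
        ((measurable_const_smul (B.e (f t).1)) (R.measurableSet_small (f t).1))))
  obtain ⟨P, Q, hP, hQ, hPQ, h1, h2, h3⟩ := exists_matching (fun t => B.e (f t).1) C hC
    (fun t z hz hz' => hz.2.1 hz'.1)
  -- matched points see both colours
  have sub : ∀ u l, u ∈ R.At l → (u ∈ P ∨ u ∈ Q) →
      (∃ i, B.e i ∈ B.V (l + 6) ∧ B.e i • u ∈ Q) ∧ (∃ i, B.e i ∈ B.V (l + 6) ∧ B.e i • u ∈ P) := by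
    intro u l hl hu
    rcases hu with hu | hu
    · refine ⟨?_, 0, ?_, ?_⟩
      · obtain ⟨t, ht, htQ⟩ := h1 u hu
        obtain ⟨n, hn, hen⟩ := ht.2.2.1
        rw [R.at_unique hl hn]
        exact ⟨_, hen, htQ⟩
      · rw [B.e_zero]; exact B.one_mem _
      · rwa [B.e_zero, one_smul]
    · refine ⟨⟨0, ?_, ?_⟩, ?_⟩
      · rw [B.e_zero]; exact B.one_mem _
      · rwa [B.e_zero, one_smul]
      · obtain ⟨t, ht, htP⟩ := h2 u hu
        obtain ⟨n, hn, hen⟩ := ht.2.2.2
        rw [smul_inv_smul] at hn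
        obtain ⟨j, hj⟩ := B.e_inv (f t).1
        refine ⟨j, ?_, ?_⟩
        · rw [← hj, R.at_unique hl hn]
          exact B.inv_mem _ _ hen
        · rw [← hj]; exact htP
  have claim1 : ∀ z ∉ X0 B X, ∀ n, z ∈ R.At n →
      (∃ i, B.e i ∈ B.V (n + 4) ∧ B.e i • z ∈ Q) ∧ (∃ i, B.e i ∈ B.V (n + 4) ∧ B.e i • z ∈ P) := by
    intro z hz n hn
    obtain ⟨i0, hi0, hne⟩ := exists_moving (B := B) hz (n + 7)
    obtain ⟨m, hm, hmn, hnm⟩ := R.at_lip hn (B.anti (by omega) hi0)
    obtain ⟨k, b, hk1, hk2⟩ := hS'sep z (B.e i0 • z) (Ne.symm hne)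
    obtain ⟨t, ht⟩ := hf (i0, k, b)
    have hzC : z ∈ C t := by
      refine ⟨?_, ?_, ?_, ?_⟩
      · rw [ht]; exact hk1
      · rw [mem_ofPred, ht]; exact hk2
      · rw [ht]; exact ⟨n, hn, B.anti (by omega) hi0⟩
      · rw [mem_ofPred, ht]; exact ⟨m, hm, B.anti (by omega) hi0⟩
    have hcase := h3 t z hzC
    rw [ht] at hcase
    have hcomb : ∀ Y : Set X, (∃ i, B.e i ∈ B.V (m + 6) ∧ B.e i • B.e i0 • z ∈ Y) →
        ∃ i, B.e i ∈ B.V (n + 4) ∧ B.e i • z ∈ Y := by
      rintro Y ⟨i, hi, hiY⟩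
      obtain ⟨k, hk⟩ := B.e_mul i i0
      refine ⟨k, ?_, ?_⟩
      · rw [← hk]; exact B.mul_mem' hi hi0 (by omega) (by omega)
      · rw [← hk, mul_smul]; exact hiY
    rcases hcase with hcase | hcase
    · obtain ⟨⟨i, hi, hiQ⟩, ⟨j, hj, hjP⟩⟩ := sub z n hn hcase
      exact ⟨⟨i, B.anti (by omega) hi, hiQ⟩, ⟨j, B.anti (by omega) hj, hjP⟩⟩
    · obtain ⟨hQ', hP'⟩ := sub _ m hm hcase
      exact ⟨hcomb Q hQ', hcomb P hP'⟩
  have upgrade : ∀ Y : Set X, (∀ z ∉ X0 B X, ∀ n, z ∈ R.At n →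
      (∃ i, B.e i ∈ B.V (n + 4) ∧ B.e i • z ∈ Y)) → ∀ z ∉ X0 B X, ∀ n, z ∈ R.At n →
      ¬ AE (B.V (n + 2)) (fun g => ¬ g • z ∈ Y) := by
    intro Y hY z hz n hn hae
    obtain ⟨i, hi⟩ := exists_not_ae_not (B.isOpen (n + 3)) (B.nonempty (n + 3))
      (p := fun i g => B.e i ∈ B.V (n + 3) ∧ B.e i • g • z ∈ Y) (by
        intro g hg
        obtain ⟨m, hm, hmn, hnm⟩ := R.at_lip hn (B.anti (by omega) hg)
        obtain ⟨i, hi, hiY⟩ := hY (g • z) (by rwa [smul_mem_X0_iff]) m hm
        exact ⟨i, B.anti (by omega) hi, hiY⟩)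
    apply hi
    by_cases hei : B.e i ∈ B.V (n + 3)
    · refine ((hae.translate_left (B.e i)).mono_set (W := B.V (n + 3)) ?_).mono ?_
      · intro g hg
        exact B.mul_mem _ _ _ hei hg
      · intro g hg hg'
        apply hg
        rw [mul_smul]
        exact hg'.2
    · exact ae_of_forall fun g _ hg => hei hg.1
  refine ⟨Q, hQ, fun z hz n hn => ⟨?_, ?_⟩⟩
  · exact upgrade Q (fun z hz n hn => (claim1 z hz n hn).1) z hz n hn
  · intro hae
    refine upgrade P (fun z hz n hn => (claim1 z hz n hn).2) z hz n hn ?_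
    exact hae.mono fun g hg hgP => hPQ _ hgP hg

end Radius

end Pool.Agent.GraphicPolish
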