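import Pool.Agent.GraphicPolish.Package

/-!
# The domination lemma
-/

set_option autoImplicit false
set_option linter.unusedSectionVars false

open Topology Filter Set Pointwise

namespace Pool.Agent.GraphicPolish

variable {G : Type*} [Group G] [TopologicalSpace G] {B : Base G}
  [IsTopologicalGroup G] {X : Type*} [MulAction G X]
  [BaireSpace G] [MeasurableSpace G] [BorelSpace G] [MeasurableSpace X]
  [StandardBorelSpace X] [MeasurableSMul₂ G X] [SecondCountableTopology G]

/-- Index bound for products of two of the first `k` group elements. -/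
noncomputable def mulBound (B : Base G) (k : ℕ) : ℕ :=
  k + ∑ i ∈ Finset.range (k + 1), ∑ j ∈ Finset.range (k + 1), Classical.choose (B.e_mul i j)

theorem le_mulBound (k : ℕ) : k ≤ mulBound B k := Nat.le_add_right _ _

theorem mulBound_mono : Monotone (mulBound B) := by
  intro k k' h
  unfold mulBound
  refine Nat.add_le_add h ?_
  calc _ ≤ ∑ i ∈ Finset.range (k + 1), ∑ j ∈ Finset.range (k' + 1),
        Classical.choose (B.e_mul i j) :=
        Finset.sum_le_sum fun i _ => Finset.sum_le_sum_of_subset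
          (Finset.range_subset_range.2 (by omega))
    _ ≤ _ := Finset.sum_le_sum_of_subset (Finset.range_subset_range.2 (by omega))

theorem exists_mul_le {k i j : ℕ} (hi : i ≤ k) (hj : j ≤ k) :
    ∃ l, l ≤ mulBound B k ∧ B.e i * B.e j = B.e l := by
  refine ⟨Classical.choose (B.e_mul i j), ?_, Classical.choose_spec (B.e_mul i j)⟩
  unfold mulBound
  refine le_trans ?_ (Nat.le_add_left _ _)
  refine le_trans ?_ (Finset.single_le_sum (f := fun i => ∑ j ∈ Finset.range (k + 1),
    Classical.choose (B.e_mul i j)) (fun _ _ => Nat.zero_le _)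
    (Finset.mem_range.2 (Nat.lt_succ_of_le hi)))
  exact Finset.single_le_sum (f := fun j => Classical.choose (B.e_mul i j))
    (fun _ _ => Nat.zero_le _) (Finset.mem_range.2 (Nat.lt_succ_of_le hj))

/-- The diagonal iterate of `mulBound`. -/
noncomputable def growth (B : Base G) (n : ℕ) : ℕ := (mulBound B)^[n] n

theorem le_iterate (n k : ℕ) : k ≤ (mulBound B)^[n] k := by
  induction n with
  | zero => exact le_rfl
  | succ n ih =>
    rw [Function.iterate_succ_apply']
    exact ih.trans (le_mulBound _)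

theorem iterate_le_succ (n k : ℕ) : (mulBound B)^[n] k ≤ (mulBound B)^[n + 1] k := by
  rw [Function.iterate_succ_apply']
  exact le_mulBound _

theorem growth_mono : Monotone (growth B) := by
  refine monotone_nat_of_le_succ fun n => ?_
  unfold growth
  calc (mulBound B)^[n] n ≤ (mulBound B)^[n + 1] n := iterate_le_succ _ _
    _ ≤ (mulBound B)^[n + 1] (n + 1) := (mulBound_mono.iterate (n + 1)) (Nat.le_succ n)

/-- Bound for the values of `τ` on products of two of the first `k` group elements. -/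
noncomputable def valBound (B : Base G) (τ : G → ℕ) (k : ℕ) : ℕ :=
  1 + ∑ i ∈ Finset.range (k + 1), ∑ j ∈ Finset.range (k + 1), τ (B.e i * B.e j)

theorem valBound_mono (τ : G → ℕ) : Monotone (valBound B τ) := by
  intro k k' h
  unfold valBound
  refine Nat.add_le_add le_rfl ?_
  calc _ ≤ ∑ i ∈ Finset.range (k + 1), ∑ j ∈ Finset.range (k' + 1), τ (B.e i * B.e j) :=
        Finset.sum_le_sum fun i _ => Finset.sum_le_sum_of_subset
          (Finset.range_subset_range.2 (by omega))
    _ ≤ _ := Finset.sum_le_sum_of_subset (Finset.range_subset_range.2 (by omega))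

theorem le_valBound (τ : G → ℕ) {k i j : ℕ} (hi : i ≤ k) (hj : j ≤ k) :
    τ (B.e i * B.e j) + 1 ≤ valBound B τ k := by
  unfold valBound
  rw [add_comm]
  refine Nat.add_le_add le_rfl ?_
  refine le_trans ?_ (Finset.single_le_sum (f := fun i => ∑ j ∈ Finset.range (k + 1),
    τ (B.e i * B.e j)) (fun _ _ => Nat.zero_le _)
    (Finset.mem_range.2 (Nat.lt_succ_of_le hi)))
  exact Finset.single_le_sum (f := fun j => τ (B.e i * B.e j))
    (fun _ _ => Nat.zero_le _) (Finset.mem_range.2 (Nat.lt_succ_of_le hj))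

/-- Levels used in the domination lemma. -/
def level (B : Base G) (X : Type*) [MulAction G X] [MeasurableSpace X]
    [StandardBorelSpace X] [MeasurableSMul₂ G X] (m k : ℕ) : Set X :=
  {u | ∃ n, u ∈ marker B X m n ∧ u ∉ marker B X m (n + 1) ∧ growth B n ≤ k ∧
    ∃ i, i ≤ k ∧ B.e i ∈ B.V (m + n) ∧ B.e i • u ∈ Cl B (marker B X m (n + 1))}

theorem measurableSet_level (m k : ℕ) : MeasurableSet (level B X m k) := by
  have : level B X m k = ⋃ n ∈ {n | growth B n ≤ k}, (marker B X m n ∩ (marker B X m (n + 1))ᶜ ∩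
      ⋃ i ∈ {i | i ≤ k ∧ B.e i ∈ B.V (m + n)},
        {u | B.e i • u ∈ Cl B (marker B X m (n + 1))}) := by
    ext u
    simp only [level, mem_ofPred, mem_iUnion, mem_inter_iff, mem_compl_iff, exists_prop]
    constructor
    · rintro ⟨n, h1, h2, h3, i, h4, h5, h6⟩
      exact ⟨n, h3, ⟨h1, h2⟩, i, ⟨h4, h5⟩, h6⟩
    · rintro ⟨n, h3, ⟨h1, h2⟩, i, ⟨h4, h5⟩, h6⟩
      exact ⟨n, h1, h2, h3, i, h4, h5, h6⟩
  rw [this]
  refine MeasurableSet.biUnion (to_countable _) fun n _ => ?_
  refine ((measurableSet_marker m n).inter (measurableSet_marker m (n + 1)).compl).inter ?_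
  refine MeasurableSet.biUnion (to_countable _) fun i _ => ?_
  exact (measurable_const_smul (B.e i)) (measurableSet_Cl (measurableSet_marker m (n + 1)))

theorem eventually_level (m : ℕ) {z : X} (hz : z ∉ X0 B X) :
    ∀ᶠ g in residual G, ∃ k, g • z ∈ level B X m k := by
  have h1 : ∀ᶠ g in residual G, ∀ n, g • z ∈ marker B X m n →
      ∃ W, IsOpen W ∧ g ∈ W ∧ AE W (fun v => v • z ∈ marker B X m n) :=
    eventually_countable_forall.2 fun n =>
      eventually_locally (measurableSet_orbit (measurableSet_marker m n) z)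
  filter_upwards [h1, marker_vanish (B := B) m hz] with g hg1 hg2
  classical
  have hn := Nat.find_spec hg2
  have hpos : Nat.find hg2 ≠ 0 := by
    intro h0
    rw [h0, marker_zero] at hn
    exact hn (mem_univ _)
  obtain ⟨n, hn'⟩ := Nat.exists_eq_succ_of_ne_zero hpos
  have hin : g • z ∈ marker B X m n := by
    by_contra h
    exact Nat.find_min hg2 (m := n) (by omega) h
  rw [hn'] at hn
  obtain ⟨W, hWo, hgW, hW⟩ := hg1 n hin
  obtain ⟨j, hj⟩ := B.ae_local hWo hgW hW
  have hcl : g • z ∈ Cl B (marker B X m n) :=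
    mem_Cl_of_ae (j := j) (hj.mono fun v hv => by rwa [mul_smul] at hv)
  obtain ⟨i, hi, hicl⟩ := marker_next (by rwa [smul_mem_X0_iff]) hcl
  exact ⟨max i (growth B n), n, hin, hn, le_max_right _ _, i, le_max_left _ _, hi, hicl⟩

/-- Combining nonmeagerness with an almost-everywhere property. -/
theorem exists_of_not_ae_and {U : Set G} {p q : G → Prop} (hp : ¬ AE U (fun g => ¬ p g))
    (hq : AE U q) : ∃ g ∈ U, p g ∧ q g := by
  by_contra hcon
  push Not at hcon
  exact hp (hq.mono' fun g hg hqg hpg => hcon g hg hpg hqg)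

/-- **Domination at a fixed scale.** -/
theorem exists_dominating_fixed (τ : G → ℕ) (hτ : ∀ h, ∃ j, ∀ v ∈ B.V j, τ (v * h) ≤ τ h + 1)
    (m : ℕ) : ∃ c : X → ℕ, Measurable c ∧ ∀ z ∉ X0 B X, ∀ h : G,
      ¬ AE (B.V m) (fun g => ¬ τ (g * h) ≤ c (g • z)) := by
  obtain ⟨κ, hκ, hκs⟩ := exists_least (fun k => level B X (m + 2) k)
    (fun k => measurableSet_level (m + 2) k)
  refine ⟨fun u => valBound B τ (κ u), (measurable_from_nat (f := valBound B τ)).comp hκ, fun z hz h hae => ?_⟩
  -- move to a dense group element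
  obtain ⟨i1, hi1⟩ := B.exists_e_mem (isOpen_translate (B.isOpen (m + 1)) h⁻¹)
    ⟨h, by simpa using B.one_mem (m + 1)⟩
  set w0 : G := B.e i1 * h⁻¹ with hw0
  have hw0h : w0 * h = B.e i1 := by rw [hw0]; group
  set z' : X := w0 • z with hz'
  have hz'0 : z' ∉ X0 B X := by rwa [hz', smul_mem_X0_iff]
  have hae' : AE (B.V (m + 1)) (fun g => valBound B τ (κ (g • z')) < τ (g * B.e i1)) := by
    refine ((hae.translate_right w0).mono_set ?_).mono ?_
    · intro g hg
      exact B.mul_mem _ _ _ hg hi1
    · intro g hg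
      have hg' := not_le.1 hg
      rw [mul_assoc, hw0h] at hg'
      simp only [mul_smul g w0 z] at hg'
      exact hg'
  -- the key property
  have key : ∀ k i n, i ≤ k → i1 ≤ k → B.e i ∈ B.V (m + 1) →
      B.e i • z' ∈ Cl B (marker B X (m + 2) n) → ∀ j, ∃ v ∈ B.V j,
        v • B.e i • z' ∈ marker B X (m + 2) n ∧ v • B.e i • z' ∈ level B X (m + 2)
          (κ (v • B.e i • z')) ∧ κ (v • B.e i • z') < k := by
    intro k i n hik hi1k hei hcl j
    obtain ⟨j1, hj1⟩ := B.exists_right (B.isOpen (m + 1)) hei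
    obtain ⟨j2, hj2⟩ := hτ (B.e i * B.e i1)
    have hlev : AE (B.V (max j (max j1 j2)))
        (fun v => ∃ k, v • B.e i • z' ∈ level B X (m + 2) k) := by
      refine (ae_of_eventually ((tendsto_mul_right_residual (B.e i)).eventually
        (eventually_level (B := B) (m + 2) hz'0))).mono fun v hv => ?_
      rwa [mul_smul] at hv
    have hae2 : AE (B.V (max j (max j1 j2)))
        (fun v => valBound B τ (κ (v • B.e i • z')) < τ (v * (B.e i * B.e i1))) := by
      refine ((hae'.translate_right (B.e i)).mono_set ?_).mono ?_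
      · intro v hv
        exact hj1 v (B.anti ((le_max_left _ _).trans (le_max_right _ _)) hv)
      · intro v hv
        rwa [mul_smul, mul_assoc] at hv
    obtain ⟨v, hv, hv1, hv2, hv3⟩ := exists_of_not_ae_and (hcl (max j (max j1 j2)))
      (hlev.and hae2)
    refine ⟨v, B.anti (le_max_left _ _) hv, hv1, (hκs _ hv2).1, ?_⟩
    by_contra hcon
    push Not at hcon
    have h1 := valBound_mono (B := B) τ hcon
    have h2 := le_valBound (B := B) τ hik hi1k
    have h3 := hj2 v (B.anti ((le_max_right _ _).trans (le_max_right _ _)) hv)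
    omega
  -- the induction
  have ind : ∀ n, ∃ i, i ≤ (mulBound B)^[n] i1 ∧
      (∀ v ∈ B.V (m + 1 + n), v * B.e i ∈ B.V (m + 1)) ∧
      B.e i • z' ∈ Cl B (marker B X (m + 2) n) := by
    intro n
    induction n with
    | zero =>
      refine ⟨0, Nat.zero_le _, fun v hv => by rw [B.e_zero, mul_one]; exact hv, ?_⟩
      rw [marker_zero]
      exact mem_Cl_of_ae (j := 0) (ae_of_forall fun _ _ => mem_univ _)
    | succ n ih =>
      obtain ⟨i, hi, hVi, hcl⟩ := ih
      set k := (mulBound B)^[n] i1 with hk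
      have hi1k : i1 ≤ k := le_iterate _ _
      have hei : B.e i ∈ B.V (m + 1) := by
        have := hVi 1 (B.one_mem _)
        rwa [one_mul] at this
      have : ∃ i', i' ≤ k ∧ B.e i' ∈ B.V (m + 2 + n) ∧
          B.e i' • B.e i • z' ∈ Cl B (marker B X (m + 2) (n + 1)) := by
        by_contra hcon
        push Not at hcon
        have hfin : ∀ i', ∃ j, i' ≤ k → B.e i' ∈ B.V (m + 2 + n) → ∀ v ∈ B.V j,
            B.e i' • v • B.e i • z' ∉ Cl B (marker B X (m + 2) (n + 1)) := by
          intro i'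
          by_cases h1 : i' ≤ k
          · by_cases h2 : B.e i' ∈ B.V (m + 2 + n)
            · obtain ⟨j, hj⟩ := eventually_not_mem_Cl (hcon i' h1 h2)
              exact ⟨j, fun _ _ => hj⟩
            · exact ⟨0, fun _ h => absurd h h2⟩
          · exact ⟨0, fun h => absurd h h1⟩
        choose J hJ using hfin
        obtain ⟨v, hv, hv1, hv2, hv3⟩ := key k i n hi hi1k hei hcl
          (∑ i' ∈ Finset.range (k + 1), J i')
        obtain ⟨n', hn1, hn2, hn3, i', hi', hi'V, hi'cl⟩ := hv2
        have hnn' : n ≤ n' := by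
          by_contra hlt
          exact hn2 (marker_anti (by omega) hv1)
        have hi'k : i' ≤ k := by omega
        refine hJ i' hi'k (B.anti (by omega) hi'V) v ?_ (Cl_mono (marker_anti (by omega)) hi'cl)
        refine B.anti ?_ hv
        exact Finset.single_le_sum (f := J) (fun _ _ => Nat.zero_le _)
          (Finset.mem_range.2 (Nat.lt_succ_of_le hi'k))
      obtain ⟨i', hi'k, hi'V, hi'cl⟩ := this
      obtain ⟨l, hl, hlm⟩ := exists_mul_le (B := B) hi'k hi
      refine ⟨l, ?_, ?_, ?_⟩
      · rw [Function.iterate_succ_apply']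
        exact hl
      · intro v hv
        rw [← hlm, ← mul_assoc]
        refine hVi _ (B.mul_mem' hv hi'V (by omega) (by omega))
      · rw [← hlm, mul_smul]
        exact hi'cl
  -- final contradiction
  obtain ⟨i, hi, hVi, hcl⟩ := ind i1
  have hei : B.e i ∈ B.V (m + 1) := by
    have := hVi 1 (B.one_mem _)
    rwa [one_mul] at this
  obtain ⟨v, hv, hv1, ⟨n', hn1, hn2, hn3, -⟩, hv3⟩ := key _ i i1 hi (le_iterate _ _) hei hcl 0
  have hnn' : i1 ≤ n' := by
    by_contra hlt
    exact hn2 (marker_anti (by omega) hv1)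
  have h1 := growth_mono (B := B) hnn'
  unfold growth at h1 hn3
  omega

/-- **Domination at variable radius.** -/
theorem exists_dominating (R : Rad B X) (τ : G → ℕ)
    (hτ : ∀ h, ∃ j, ∀ v ∈ B.V j, τ (v * h) ≤ τ h + 1) :
    ∃ c : X → ℕ, Measurable c ∧ ∀ z ∉ X0 B X, ∀ n, z ∈ R.At n → ∀ h : G,
      ∃ g ∈ B.V (n + 2), ∃ s, Stab B c (g • z) s ∧ τ (g * h) ≤ s := by
  choose cf hcf hcf' using fun m => exists_dominating_fixed (B := B) (X := X) τ hτ m
  obtain ⟨ν, hν, hνs⟩ := exists_least (fun n => R.P n) R.meas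
  have hν' : ∀ z n, z ∈ R.At n → ν z = n := by
    intro z n hn
    obtain ⟨h1, h2⟩ := hνs z ⟨n, hn.1⟩
    refine le_antisymm (h2 n hn.1) ?_
    by_contra hlt
    exact hn.2 _ (by omega) h1
  have hcm : Measurable (fun z => ∑ m ∈ Finset.range (ν z + 5), cf m z) := by
    have h1 : Measurable (fun p : X × ℕ => ∑ m ∈ Finset.range (p.2 + 5), cf m p.1) := by
      refine measurable_from_prod_countable_left fun n => ?_
      have : Measurable (fun x => ∑ m ∈ Finset.range (n + 5), cf m x) :=
        Finset.measurable_sum _ fun m _ => hcf m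
      exact this
    exact h1.comp (measurable_id.prodMk hν)
  refine ⟨fun z => ∑ m ∈ Finset.range (ν z + 5), cf m z, hcm, ?_⟩
  · intro z hz n hn h
    set c : X → ℕ := fun z => ∑ m ∈ Finset.range (ν z + 5), cf m z with hc
    have h1 := hcf' (n + 3) z hz h
    have h2 : ∀ᶠ g in residual G, ∀ s, c (g • z) = s →
        ∃ W, IsOpen W ∧ g ∈ W ∧ AE W (fun v => c (v • z) = s) :=
      eventually_countable_forall.2 fun s =>
        eventually_locally (measurableSet_orbit (A := {u | c u = s})
          (hcm (measurableSet_singleton s)) z)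
    have h1' : ¬ AE (B.V (n + 3)) (fun g => ¬ τ (g * h) ≤ cf (n + 3) (g • z)) := h1
    obtain ⟨g, hg, hg1, hg2⟩ := exists_of_not_ae_and h1' (ae_of_eventually h2)
    refine ⟨g, B.anti (by omega) hg, c (g • z), ?_, ?_⟩
    · obtain ⟨W, hWo, hgW, hW⟩ := hg2 _ rfl
      obtain ⟨j, hj⟩ := B.ae_local hWo hgW hW
      exact ⟨j, hj.mono fun v hv => by rwa [mul_smul] at hv⟩
    · refine hg1.trans ?_
      obtain ⟨m, hm, hm1, hm2⟩ := R.at_lip hn (B.anti (by omega) hg)
      have hνg := hν' _ _ hm
      exact Finset.single_le_sum (f := fun m => cf m (g • z)) (fun _ _ => Nat.zero_le _)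
        (Finset.mem_range.2 (by omega))

end Pool.Agent.GraphicPolish
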