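import Pool.Agent.GraphicPolish.Domination

/-!
# Every Polish group is graphic
-/

set_option autoImplicit false
set_option linter.unusedSectionVars false

open Topology Filter Set Pointwise

namespace Pool.Agent.GraphicPolish

section Modulus

/-- The modulus function of a metric. -/
theorem exists_modulus {G : Type*} [Group G] [MetricSpace G] [IsTopologicalGroup G] (B : Base G)
    (ε : ℝ) (hε : 0 < ε) : ∃ τ : G → ℕ, (∀ h, ∀ v ∈ B.V (τ h), dist (v * h) h ≤ ε) ∧
      (∀ h, ∃ j, ∀ v ∈ B.V j, τ (v * h) ≤ τ h + 1) := by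
  classical
  have hex : ∀ h : G, ∃ n, ∀ v ∈ B.V n, ∀ v' ∈ B.V n, dist (v * h) (v' * h) ≤ ε := by
    intro h
    obtain ⟨n, hn⟩ := B.exists_right (U := Metric.ball h (ε / 2)) Metric.isOpen_ball
      (g := h) (Metric.mem_ball_self (by linarith))
    refine ⟨n, fun v hv v' hv' => ?_⟩
    have h1 := Metric.mem_ball.1 (hn v hv)
    have h2 := Metric.mem_ball.1 (hn v' hv')
    calc dist (v * h) (v' * h) ≤ dist (v * h) h + dist (v' * h) h := dist_triangle_right _ _ _
      _ ≤ ε := by linarith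
  refine ⟨fun h => Nat.find (hex h), fun h v hv => ?_, fun h => ?_⟩
  · have := Nat.find_spec (hex h) v hv 1 (B.one_mem _)
    rwa [one_mul] at this
  · refine ⟨Nat.find (hex h) + 1, fun w hw => Nat.find_min' _ fun v hv v' hv' => ?_⟩
    rw [← mul_assoc, ← mul_assoc]
    exact Nat.find_spec (hex h) _ (B.mul_mem _ _ _ hv hw) _ (B.mul_mem _ _ _ hv' hw)

end Modulus

section Main

variable {G : Type*} [Group G] [MetricSpace G] [CompleteSpace G] [SecondCountableTopology G]
  [IsTopologicalGroup G] [MeasurableSpace G] [BorelSpace G] {X : Type*} [MulAction G X]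
  [MeasurableSpace X] [StandardBorelSpace X] [MeasurableSMul₂ G X]

/-- The decoding theorem: away from points with open stabilizers one can read off two group
elements. -/
theorem exists_decoder (B : Base G) : ∃ H K : X → G, Measurable H ∧ Measurable K ∧
    ∀ x ∉ X0 B X, ∀ gs : G, ∃ h : G, H (h • x) = h ∧ K (h • x) = gs := by
  have hpow : ∀ k : ℕ, (0 : ℝ) < (1 / 2) ^ k := fun k => by positivity
  choose τ hτ1 hτ2 using fun k : ℕ => exists_modulus B ((1 / 2 : ℝ) ^ k) (hpow k)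
  -- approximation indices
  have hidx : ∀ (k : ℕ) (h : G), ∃ i, dist (B.e i) h ≤ (1 / 2 : ℝ) ^ k := by
    intro k h
    obtain ⟨i, hi⟩ := B.exists_e_mem (U := Metric.ball h ((1 / 2 : ℝ) ^ k)) Metric.isOpen_ball
      ⟨h, Metric.mem_ball_self (hpow k)⟩
    exact ⟨i, (Metric.mem_ball.1 hi).le⟩
  choose idx hidx using hidx
  -- the steps
  have hstep : ∀ (k : ℕ) (R : Rad B X), ∃ θ : X → ℕ, Measurable θ ∧
      (k % 3 = 0 → ∀ z ∉ X0 B X, ∀ n, z ∈ R.At n → ∀ h : G,
        ∃ g ∈ B.V (n + 2), ∃ s, Stab B θ (g • z) s ∧ τ k (g * h) ≤ s) ∧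
      (k % 3 ≠ 0 → ∀ z ∉ X0 B X, ∀ n, z ∈ R.At n → ∀ i,
        ∃ g ∈ B.V (n + 2), Stab B θ (g • z) i) := by
    intro k R
    by_cases hk : k % 3 = 0
    · obtain ⟨θ, h1, h2⟩ := exists_dominating R (τ k) (hτ2 k)
      exact ⟨θ, h1, fun _ => h2, fun h => absurd hk h⟩
    · obtain ⟨θ, h1, h2⟩ := exists_coding R
      exact ⟨θ, h1, fun h => absurd h hk, fun _ => h2⟩
  choose Θ hΘm hΘd hΘc using hstep
  let R : ℕ → Rad B X := fun k =>
    Nat.rec (Rad.const B X 0) (fun k R => R.next (Θ k R) (hΘm k R)) k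
  have hRs : ∀ k, R (k + 1) = (R k).next (Θ k (R k)) (hΘm k (R k)) := fun k => rfl
  have hR0 : ∀ z : X, z ∈ (R 0).At 0 := fun z =>
    ⟨(le_refl 0 : 0 ≤ 0), fun m hm => absurd hm (Nat.not_lt_zero m)⟩
  -- readers
  choose r hrm hr using fun k => exists_reader B (hΘm k (R k))
  refine ⟨fun y => limUnder atTop (fun j : ℕ => B.e (r (3 * j + 1) y)),
    fun y => limUnder atTop (fun j : ℕ => B.e (r (3 * j + 2) y)), ?_, ?_, ?_⟩
  · have : Nonempty G := ⟨1⟩
    exact (MeasureTheory.StronglyMeasurable.limUnder fun j =>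
      ((measurable_from_nat (f := B.e)).comp (hrm (3 * j + 1))).stronglyMeasurable).measurable
  · have : Nonempty G := ⟨1⟩
    exact (MeasureTheory.StronglyMeasurable.limUnder fun j =>
      ((measurable_from_nat (f := B.e)).comp (hrm (3 * j + 2))).stronglyMeasurable).measurable
  intro x hx gs
  -- the walk
  have hwalk : ∀ k (p : {p : G × ℕ // p.1 • x ∈ (R k).At p.2}),
      ∃ (p' : {p : G × ℕ // p.1 • x ∈ (R (k + 1)).At p.2}) (t : ℕ),
        (∃ v ∈ B.V (p.1.2 + 2), p'.1.1 = v * p.1.1) ∧ p.1.2 + 1 ≤ p'.1.2 ∧ t ≤ p'.1.2 ∧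
        AE (B.V p'.1.2) (fun g => Θ k (R k) (g • p'.1.1 • x) = t) ∧
        (k % 3 = 0 → τ k p'.1.1 ≤ t) ∧ (k % 3 = 1 → t = idx k p.1.1) ∧
        (k % 3 = 2 → t = idx k gs) := by
    rintro k ⟨⟨h, n⟩, hn⟩
    have hhx : h • x ∉ X0 B X := by rwa [smul_mem_X0_iff]
    have general : ∀ g ∈ B.V (n + 2), ∀ s, Stab B (Θ k (R k)) (g • h • x) s →
        ∃ (p' : {p : G × ℕ // p.1 • x ∈ (R (k + 1)).At p.2}),
        p'.1.1 = g * h ∧ n + 1 ≤ p'.1.2 ∧ s ≤ p'.1.2 ∧
        AE (B.V p'.1.2) (fun v => Θ k (R k) (v • p'.1.1 • x) = s) := by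
      intro g hg s hs
      obtain ⟨l', h1, h2, h3, h4⟩ := (R k).step _ (hΘm k (R k)) hn hg hs
      refine ⟨⟨(g * h, l'), ?_⟩, rfl, h2, h3, ?_⟩
      · rw [hRs, mul_smul]; exact h1
      · simpa only [mul_smul] using h4
    by_cases hk : k % 3 = 0
    · obtain ⟨g, hg, s, hs, hτs⟩ := hΘd k (R k) hk (h • x) hhx n hn h
      obtain ⟨p', h1, h2, h3, h4⟩ := general g hg s hs
      refine ⟨p', s, ⟨g, hg, h1⟩, h2, h3, h4, fun _ => by rw [h1]; exact hτs, ?_, ?_⟩
      · intro h'; omega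
      · intro h'; omega
    · obtain ⟨g, hg, hs⟩ := hΘc k (R k) hk (h • x) hhx n hn
        (if k % 3 = 1 then idx k h else idx k gs)
      obtain ⟨p', h1, h2, h3, h4⟩ := general g hg _ hs
      refine ⟨p', _, ⟨g, hg, h1⟩, h2, h3, h4, fun h' => absurd h' hk, ?_, ?_⟩
      · intro h'; rw [if_pos h']
      · intro h'; rw [if_neg (by omega)]
  choose nx tt h1 h2 h3 h4 h5 h6 h7 using hwalk
  let f : ∀ k, {p : G × ℕ // p.1 • x ∈ (R k).At p.2} := fun k =>
    Nat.rec ⟨(1, 0), by rw [one_smul]; exact hR0 x⟩ (fun k p => nx k p) k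
  have hfs : ∀ k, f (k + 1) = nx k (f k) := fun k => rfl
  set h : ℕ → G := fun k => (f k).1.1 with hh
  set n : ℕ → ℕ := fun k => (f k).1.2 with hn
  set t : ℕ → ℕ := fun k => tt k (f k) with ht
  have ha : ∀ k, ∃ v ∈ B.V (n k + 2), h (k + 1) = v * h k := fun k => h1 k (f k)
  have hb : ∀ k, n k + 1 ≤ n (k + 1) := fun k => h2 k (f k)
  have hc : ∀ k, t k ≤ n (k + 1) := fun k => h3 k (f k)
  have hd : ∀ k, AE (B.V (n (k + 1))) (fun g => Θ k (R k) (g • h (k + 1) • x) = t k) :=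
    fun k => h4 k (f k)
  have he0 : ∀ k, k % 3 = 0 → τ k (h (k + 1)) ≤ t k := fun k => h5 k (f k)
  have he1 : ∀ k, k % 3 = 1 → t k = idx k (h k) := fun k => h6 k (f k)
  have he2 : ∀ k, k % 3 = 2 → t k = idx k gs := fun k => h7 k (f k)
  have nested : ∀ k l, k ≤ l → ∀ v ∈ B.V (n l + 1), ∃ v' ∈ B.V (n k + 1), v * h l = v' * h k := by
    intro k l hkl
    induction hkl with
    | refl => exact fun v hv => ⟨v, hv, rfl⟩
    | step _ ih =>
      rename_i m _
      intro v hv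
      obtain ⟨w, hw, hwm⟩ := ha m
      have hbm := hb m
      obtain ⟨v', hv', hvv'⟩ := ih (v * w) (B.mul_mem' hv hw (by simp only [Nat.succ_eq_add_one]; omega) (by omega))
      refine ⟨v', hv', ?_⟩
      rw [Nat.succ_eq_add_one, hwm, ← mul_assoc]
      exact hvv'
  have hin : ∀ k l, k ≤ l → ∃ v' ∈ B.V (n k + 1), h l = v' * h k := by
    intro k l hkl
    obtain ⟨v', hv', h'⟩ := nested k l hkl 1 (B.one_mem _)
    exact ⟨v', hv', by rwa [one_mul] at h'⟩
  have hdist : ∀ k, k % 3 = 0 → ∀ l, k + 1 ≤ l → dist (h l) (h (k + 1)) ≤ (1 / 2 : ℝ) ^ k := by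
    intro k hk l hl
    obtain ⟨v', hv', h'⟩ := hin (k + 1) l hl
    rw [h']
    refine hτ1 k _ v' (B.anti ?_ hv')
    exact ((he0 k hk).trans (hc k)).trans (Nat.le_succ _)
  have hcauchy : CauchySeq h := by
    rw [Metric.cauchySeq_iff']
    intro ε hε
    obtain ⟨j, hj⟩ := exists_pow_lt_of_lt_one hε (by norm_num : (1 / 2 : ℝ) < 1)
    refine ⟨3 * j + 1, fun l hl => ?_⟩
    refine lt_of_le_of_lt (hdist (3 * j) (by omega) l hl) (lt_of_le_of_lt ?_ hj)
    exact pow_le_pow_of_le_one (by norm_num) (by norm_num) (by omega)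
  obtain ⟨hl, hlim⟩ := cauchySeq_tendsto_of_complete hcauchy
  have hmem : ∀ k, ∃ v ∈ B.V (n k), hl = v * h k := by
    intro k
    have hO : IsOpen {g | g * hl⁻¹ ∈ B.V (n k + 1)} := isOpen_translate (B.isOpen _) _
    have hev := hlim.eventually (hO.mem_nhds (by simpa using B.one_mem (n k + 1)))
    obtain ⟨l, hl1, hl2⟩ := (hev.and (eventually_ge_atTop k)).exists
    obtain ⟨v', hv', h'⟩ := hin k l hl2
    refine ⟨(h l * hl⁻¹)⁻¹ * v', B.mul_mem _ _ _ (B.inv_mem _ _ hl1) hv', ?_⟩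
    rw [mul_assoc, ← h']
    group
  have hstab : ∀ k, Stab B (Θ k (R k)) (hl • x) (t k) := by
    intro k
    obtain ⟨v, hv, h'⟩ := hmem (k + 1)
    obtain ⟨j, hj⟩ := B.ae_local (B.isOpen _) hv (hd k)
    refine ⟨j, hj.mono fun w hw => ?_⟩
    rw [h', mul_smul v]
    rwa [mul_smul] at hw
  have hread : ∀ k, r k (hl • x) = t k := fun k => hr k _ _ (hstab k)
  refine ⟨hl, ?_, ?_⟩
  · refine Tendsto.limUnder_eq ?_
    simp only [hread]
    have hmt : Tendsto (fun j : ℕ => 3 * j + 1) atTop atTop :=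
      tendsto_atTop_mono (fun j => (by omega : j ≤ 3 * j + 1)) tendsto_id
    have hsub : Tendsto (fun j : ℕ => h (3 * j + 1)) atTop (𝓝 hl) := hlim.comp hmt
    refine hsub.congr_dist ?_
    refine squeeze_zero (fun _ => dist_nonneg) (g := fun j : ℕ => (1 / 2 : ℝ) ^ j) (fun j => ?_)
      (tendsto_pow_atTop_nhds_zero_of_lt_one (by norm_num) (by norm_num))
    rw [he1 (3 * j + 1) (by omega), dist_comm]
    refine (hidx _ _).trans (pow_le_pow_of_le_one (by norm_num) (by norm_num) (by omega))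
  · refine Tendsto.limUnder_eq ?_
    simp only [hread]
    have hsub : Tendsto (fun _ : ℕ => gs) atTop (𝓝 gs) := tendsto_const_nhds
    refine hsub.congr_dist ?_
    refine squeeze_zero (fun _ => dist_nonneg) (g := fun j : ℕ => (1 / 2 : ℝ) ^ j) (fun j => ?_)
      (tendsto_pow_atTop_nhds_zero_of_lt_one (by norm_num) (by norm_num))
    rw [he2 (3 * j + 2) (by omega), dist_comm]
    refine (hidx _ _).trans (pow_le_pow_of_le_one (by norm_num) (by norm_num) (by omega))

/-- **Every Polish group is graphic** (version for a complete metric and standard Borel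
spaces). -/
theorem graphic : ∃ Γ : SimpleGraph X, MeasurableSet {p : X × X | Γ.Adj p.1 p.2} ∧
    ∀ x y : X, Γ.Reachable x y ↔ ∃ g : G, g • x = y := by
  obtain ⟨B⟩ := exists_base G
  obtain ⟨H, K, hH, hK, hHK⟩ := exists_decoder (X := X) B
  let rel : X → X → Prop := fun x y => (∃ i, B.e i • x = y) ∨ H y • x = y ∨
    (H y * (K y)⁻¹) • x = y
  have hrel : MeasurableSet {p : X × X | rel p.1 p.2} := by
    have h1 : MeasurableSet {p : X × X | ∃ i, B.e i • p.1 = p.2} := by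
      have : {p : X × X | ∃ i, B.e i • p.1 = p.2} = ⋃ i, {p : X × X | B.e i • p.1 = p.2} := by
        ext p; simp
      rw [this]
      exact MeasurableSet.iUnion fun i => measurableSet_eq_fun
        ((measurable_const_smul (B.e i)).comp measurable_fst) measurable_snd
    have h2 : MeasurableSet {p : X × X | H p.2 • p.1 = p.2} :=
      measurableSet_eq_fun ((hH.comp measurable_snd).smul measurable_fst) measurable_snd
    have h3 : MeasurableSet {p : X × X | (H p.2 * (K p.2)⁻¹) • p.1 = p.2} :=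
      measurableSet_eq_fun (((hH.comp measurable_snd).mul
        (hK.comp measurable_snd).inv).smul measurable_fst) measurable_snd
    exact h1.union (h2.union h3)
  have horb : ∀ x y, rel x y → ∃ g : G, g • x = y := by
    rintro x y (⟨i, h⟩ | h | h)
    · exact ⟨_, h⟩
    · exact ⟨_, h⟩
    · exact ⟨_, h⟩
  let Γ : SimpleGraph X := SimpleGraph.fromRel rel
  have hreach : ∀ x y, rel x y → Γ.Reachable x y := by
    intro x y h
    by_cases hxy : x = y
    · rw [hxy]
    · exact SimpleGraph.Adj.reachable ((SimpleGraph.fromRel_adj rel x y).2 ⟨hxy, Or.inl h⟩)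
  refine ⟨Γ, ?_, fun x y => ⟨?_, ?_⟩⟩
  · have : {p : X × X | Γ.Adj p.1 p.2} =
        {p : X × X | p.1 = p.2}ᶜ ∩ ({p : X × X | rel p.1 p.2} ∪
          Prod.swap ⁻¹' {p : X × X | rel p.1 p.2}) := by
      ext p
      simp [Γ, SimpleGraph.fromRel_adj]
    rw [this]
    exact (measurableSet_eq_fun measurable_fst measurable_snd).compl.inter
      (hrel.union (measurable_swap hrel))
  · rintro ⟨w⟩
    induction w with
    | nil => exact ⟨1, one_smul _ _⟩
    | cons hadj _ ih =>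
      obtain ⟨g, hg⟩ := ih
      obtain ⟨-, hr⟩ := (SimpleGraph.fromRel_adj rel _ _).1 hadj
      rcases hr with hr | hr
      · obtain ⟨g', hg'⟩ := horb _ _ hr
        exact ⟨g * g', by rw [mul_smul, hg', hg]⟩
      · obtain ⟨g', hg'⟩ := horb _ _ hr
        exact ⟨g * g'⁻¹, by rw [mul_smul, ← hg', inv_smul_smul, hg]⟩
  · rintro ⟨g, rfl⟩
    by_cases hx : x ∈ X0 B X
    · obtain ⟨i, hi⟩ := exists_e_smul_of_mem_X0 B hx g
      exact hreach _ _ (Or.inl ⟨i, hi⟩)
    · obtain ⟨h, hh1, hh2⟩ := hHK x hx g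
      have h1 : rel x (h • x) := Or.inr (Or.inl (by rw [hh1]))
      have h2 : rel (g • x) (h • x) := Or.inr (Or.inr (by
        rw [hh1, hh2, mul_smul, inv_smul_smul]))
      exact (hreach _ _ h1).trans (hreach _ _ h2).symm

end Main

end Pool.Agent.GraphicPolish
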