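import Pool.Agent.GraphicPolish.Chain

/-!
# Vanishing sequences of markers at a fixed scale
-/

set_option autoImplicit false
set_option linter.unusedSectionVars false

open Topology Filter Set Pointwise

namespace Pool.Agent.GraphicPolish

variable {G : Type*} [Group G] [TopologicalSpace G] {B : Base G}
  [IsTopologicalGroup G] {X : Type*} [MulAction G X]
  [BaireSpace G] [MeasurableSpace G] [BorelSpace G] [MeasurableSpace X]
  [StandardBorelSpace X] [MeasurableSMul₂ G X] [SecondCountableTopology G]

/-- Closure along the orbits (in the sense of category). -/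
def Cl (B : Base G) (A : Set X) : Set X := {z | ∀ j, ¬ AE (B.V j) (fun g => ¬ g • z ∈ A)}

theorem measurableSet_Cl {A : Set X} (hA : MeasurableSet A) : MeasurableSet (Cl B A) := by
  have : Cl B A = ⋂ j, {z | AE (B.V j) (fun g => g • z ∈ Aᶜ)}ᶜ := by
    ext z; simp [Cl]
  rw [this]
  exact MeasurableSet.iInter fun j => (measurableSet_ae_orbit hA.compl (B.isOpen j)).compl

theorem Cl_mono {A A' : Set X} (h : A ⊆ A') : Cl B A ⊆ Cl B A' := fun _ hz j hj =>
  hz j (hj.mono fun _ hg hg' => hg (h hg'))

theorem mem_Cl_of_ae {A : Set X} {z : X} {j : ℕ} (h : AE (B.V j) (fun g => g • z ∈ A)) :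
    z ∈ Cl B A := fun _ hk => ae_inconsistent h hk fun _ h1 h2 => h2 h1

/-- `Cl A` is closed along orbits. -/
theorem eventually_not_mem_Cl {A : Set X} {z : X} {a : G} (h : a • z ∉ Cl B A) :
    ∃ j, ∀ v ∈ B.V j, a • v • z ∉ Cl B A := by
  simp only [Cl, mem_ofPred, not_forall, not_not] at h
  obtain ⟨j0, hj0⟩ := h
  have hO : IsOpen {v | a * v * a⁻¹ ∈ B.V (j0 + 1)} :=
    (B.isOpen _).preimage ((continuous_mul_const _).comp (continuous_const_mul _))
  obtain ⟨j, hj⟩ := B.basis _ (hO.mem_nhds (by simpa using B.one_mem (j0 + 1)))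
  refine ⟨j, fun v hv hcl => ?_⟩
  have hv' : a * v * a⁻¹ ∈ B.V (j0 + 1) := hj hv
  refine hcl (j0 + 1) ?_
  refine ((hj0.translate_right (a * v * a⁻¹)).mono_set ?_).mono ?_
  · intro g hg
    exact B.mul_mem _ _ _ hg hv'
  · intro g hg
    have : (g * (a * v * a⁻¹)) • a • z = g • a • v • z := by
      rw [← mul_smul, ← mul_smul, ← mul_smul]
      congr 1
      group
    rwa [this] at hg

/-- The constant radius predicate. -/
def Rad.const (B : Base G) (X : Type*) [MulAction G X] [MeasurableSpace X] (m : ℕ) : Rad B X where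
  P n := {_z | m ≤ n}
  meas _ := MeasurableSet.const _
  mono := fun n z (hz : m ≤ n) => show m ≤ n + 1 by omega
  lip := fun n z w (hz : m ≤ n) _ => show m ≤ n + 1 by omega

/-- The decreasing sequence of markers at scale `m`. -/
def marker (B : Base G) (X : Type*) [MulAction G X] [MeasurableSpace X]
    [StandardBorelSpace X] [MeasurableSMul₂ G X] (m n : ℕ) : Set X :=
  {z | ∀ i, i < n → z ∈ ((Rad.const B X m).chain i).col}

theorem measurableSet_marker (m n : ℕ) : MeasurableSet (marker B X m n) := by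
  have : marker B X m n = ⋂ i ∈ {i | i < n}, ((Rad.const B X m).chain i).col := by
    ext z; simp [marker]
  rw [this]
  exact MeasurableSet.biInter (to_countable _) fun i _ => Rad.measurableSet_col _

theorem marker_zero (m : ℕ) : marker B X m 0 = univ := by
  ext z; simp [marker]

theorem marker_anti {m n n' : ℕ} (h : n ≤ n') : marker B X m n' ⊆ marker B X m n :=
  fun _ hz i hi => hz i (by omega)

theorem mem_marker_succ {m n : ℕ} {z : X} :
    z ∈ marker B X m (n + 1) ↔ z ∈ marker B X m n ∧ z ∈ ((Rad.const B X m).chain n).col := by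
  refine ⟨fun h => ⟨marker_anti (Nat.le_succ n) h, h n (Nat.lt_succ_self n)⟩, ?_⟩
  rintro ⟨h1, h2⟩ i hi
  rcases Nat.lt_succ_iff_lt_or_eq.1 hi with hi | rfl
  · exact h1 i hi
  · exact h2

theorem chain_const_ge {m k n : ℕ} {z : X} (h : z ∈ ((Rad.const B X m).chain k).P n) :
    m + 2 * k ≤ n := by
  induction k generalizing n with
  | zero => exact h
  | succ k ih =>
    obtain ⟨n', rfl, hz, -⟩ := h
    have := ih hz
    omega

theorem chain_const_value {m k n : ℕ} {z : X} (h : z ∈ ((Rad.const B X m).chain k).P n) :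
    ∀ i, i < k → ∃ s, AE (B.V n) (fun g => ((Rad.const B X m).chain i).ind (g • z) = s) := by
  induction k generalizing n with
  | zero => intro i hi; exact absurd hi (Nat.not_lt_zero _)
  | succ k ih =>
    obtain ⟨n', rfl, hz, s, -, hs⟩ := h
    intro i hi
    rcases Nat.lt_succ_iff_lt_or_eq.1 hi with hi | rfl
    · obtain ⟨s, hs⟩ := ih hz i hi
      exact ⟨s, hs.mono_set (B.anti (by omega))⟩
    · exact ⟨s, hs.mono_set (B.anti (by omega))⟩

theorem chain_const_exists {m k j : ℕ} {z : X}
    (h : AE (B.V j) (fun g => g • z ∈ marker B X m k)) :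
    ∃ n, z ∈ ((Rad.const B X m).chain k).P n := by
  induction k with
  | zero => exact ⟨m, (le_refl m : m ≤ m)⟩
  | succ k ih =>
    obtain ⟨n, hn⟩ := ih (h.mono fun g hg => marker_anti (Nat.le_succ k) hg)
    refine ⟨max n (max j 1) + 2, _, rfl, Rad.mono' _ (le_max_left _ _) hn, 1, ?_, ?_⟩
    · exact (le_max_right _ _).trans (le_max_right _ _)
    · refine (h.mono_set (B.anti ?_)).mono fun g hg => ?_
      · exact (le_max_left _ _).trans (le_max_right _ _)
      · exact Rad.ind_eq_one.2 (mem_marker_succ.1 hg).2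

/-- Markers are relatively syndetic. -/
theorem marker_next {m k : ℕ} {z : X} (hz : z ∉ X0 B X) (hcl : z ∈ Cl B (marker B X m k)) :
    ∃ i, B.e i ∈ B.V (m + k) ∧ B.e i • z ∈ Cl B (marker B X m (k + 1)) := by
  obtain ⟨w, hw, -, j, hj⟩ := exists_stable (B := B) (B.isOpen (m + k + 2))
    (measurableSet_marker (B := B) m k) (hcl (m + k + 2))
  have hu : w • z ∉ X0 B X := by rwa [smul_mem_X0_iff]
  obtain ⟨n, hn⟩ := chain_const_exists hj
  obtain ⟨l, -, hl⟩ := Rad.exists_at _ hn
  have hl0 := chain_const_ge hl.1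
  have h1 : AE (B.V l) (fun g => g • w • z ∈ marker B X m k) := by
    have : AE (B.V l) (fun g => ∀ i : ℕ, i < k → g • w • z ∈ ((Rad.const B X m).chain i).col) := by
      refine ae_forall fun i => ?_
      by_cases hi : i < k
      · obtain ⟨s, hs⟩ := chain_const_value hl.1 i hi
        have hs1 : s = 1 := by
          by_contra hne
          refine ae_inconsistent hs hj fun g h1 h2 => hne ?_
          rw [← h1]
          exact Rad.ind_eq_one.2 (h2 i hi)
        subst hs1
        exact hs.mono fun g hg _ => Rad.ind_eq_one.1 hg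
      · exact ae_of_forall fun g _ hi' => absurd hi' hi
    exact this
  have h2 := (Rad.col_spec _ hu hl).1
  have h3 : ¬ AE (B.V (l + 2)) (fun g => ¬ g • w • z ∈ marker B X m (k + 1)) := by
    intro h
    apply h2
    refine (h.and (h1.mono_set (B.anti (by omega)))).mono fun g hg hgc => ?_
    exact hg.1 (mem_marker_succ.2 ⟨hg.2, hgc⟩)
  obtain ⟨W, hWo, ⟨a, ha⟩, hWs, hW⟩ := exists_open_of_not_ae_not (B.isOpen _)
    (measurableSet_orbit (measurableSet_marker (B := B) m (k + 1)) (w • z)) h3
  obtain ⟨i, hi⟩ := B.exists_e_mem (isOpen_translate hWo w⁻¹) ⟨a * w, by simpa using ha⟩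
  refine ⟨i, ?_, ?_⟩
  · have := B.mul_mem' (k := m + k) (hWs hi) hw (by omega) (by omega)
    rwa [inv_mul_cancel_right] at this
  · obtain ⟨j', hj'⟩ := B.ae_local hWo hi hW
    refine mem_Cl_of_ae (j := j') (hj'.mono fun v hv => ?_)
    have : (v * (B.e i * w⁻¹)) • w • z = v • B.e i • z := by
      rw [← mul_smul, ← mul_smul]
      congr 1
      group
    rwa [this] at hv

/-- Markers vanish along almost all of every orbit. -/
theorem marker_vanish (m : ℕ) {z : X} (hz : z ∉ X0 B X) :
    ∀ᶠ g in residual G, ∃ n, g • z ∉ marker B X m n := by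
  by_contra hcon
  have hmeas : MeasurableSet (⋂ n, marker B X m n) :=
    MeasurableSet.iInter fun n => measurableSet_marker (B := B) m n
  have h1 : ¬ AE univ (fun g : G => ¬ g • z ∈ ⋂ n, marker B X m n) := by
    intro h
    apply hcon
    refine Filter.Eventually.mono h fun g hg => ?_
    have := hg (mem_univ g)
    simpa using this
  obtain ⟨w, -, -, j, hj⟩ := exists_stable (B := B) isOpen_univ hmeas h1
  have hj' : ∀ n, AE (B.V j) (fun g => g • w • z ∈ marker B X m n) := fun n =>
    hj.mono fun g hg => mem_iInter.1 hg n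
  have hu : w • z ∉ X0 B X := by rwa [smul_mem_X0_iff]
  obtain ⟨n, hn⟩ := chain_const_exists (hj' j)
  obtain ⟨l, -, hl⟩ := Rad.exists_at _ hn
  have hl0 := chain_const_ge hl.1
  apply (Rad.col_spec _ hu hl).2
  refine ((hj' (j + 1)).mono_set (B.anti (by omega))).mono fun g hg => ?_
  exact (mem_marker_succ.1 hg).2

end Pool.Agent.GraphicPolish
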